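import Mathlib

/-!
# Cups and caps (MP_ec6744_co)
-/

namespace Pool.Agent.Helper456.ES

open Real Finset

/-- the plane -/
abbrev E := EuclideanSpace ℝ (Fin 2)

/-- orientation determinant -/
noncomputable def det (a b c : E) : ℝ :=
  (b 0 - a 0) * (c 1 - a 1) - (b 1 - a 1) * (c 0 - a 0)

/-- a linear functional -/
noncomputable def ψ (t : ℝ) (p : E) : ℝ := p 0 + t * p 1

lemma det_rot (a b c : E) : det a b c = det b c a := by unfold det; ring
lemma det_left (a b : E) : det a b a = 0 := by unfold det; ring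
lemma det_right (a b : E) : det a b b = 0 := by unfold det; ring
lemma det_same (a b : E) : det a a b = 0 := by unfold det; ring

lemma det_id1 (t : ℝ) (a b c q : E) :
    (ψ t c - ψ t b) * det a b q - (ψ t b - ψ t a) * det b c q
      = (ψ t q - ψ t b) * det a b c := by
  unfold det ψ; ring

lemma det_id2 (t : ℝ) (a b c d : E) :
    (ψ t c - ψ t b) * det a c d
      = (ψ t d - ψ t c) * det a b c + (ψ t c - ψ t a) * det b c d := by
  unfold det ψ; ring

lemma det_id3 (u v w : ℝ) (a b c d : E) :
    det b c d * (u * a 0 + v * a 1 - w) + det a b d * (u * c 0 + v * c 1 - w)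
      = det a c d * (u * b 0 + v * b 1 - w) + det a b c * (u * d 0 + v * d 1 - w) := by
  unfold det; ring

lemma det_pos_abd {t σ : ℝ} {a b c d : E} (hab : ψ t a < ψ t b) (hbc : ψ t b < ψ t c)
    (hcd : ψ t c < ψ t d) (h1 : 0 < σ * det a b c) (h2 : 0 < σ * det b c d) :
    0 < σ * det a b d := by
  have h := det_id1 t a b c d
  have e : (ψ t c - ψ t b) * (σ * det a b d)
      = (ψ t b - ψ t a) * (σ * det b c d) + (ψ t d - ψ t b) * (σ * det a b c) := by
    linear_combination σ * h
  have e1 : 0 < (ψ t b - ψ t a) * (σ * det b c d) := mul_pos (by linarith) h2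
  have e2 : 0 < (ψ t d - ψ t b) * (σ * det a b c) := mul_pos (by linarith) h1
  have e3 : 0 < (ψ t c - ψ t b) * (σ * det a b d) := by linarith
  exact (pos_iff_pos_of_mul_pos e3).mp (by linarith)

lemma det_pos_acd {t σ : ℝ} {a b c d : E} (hab : ψ t a < ψ t b) (hbc : ψ t b < ψ t c)
    (hcd : ψ t c < ψ t d) (h1 : 0 < σ * det a b c) (h2 : 0 < σ * det b c d) :
    0 < σ * det a c d := by
  have h := det_id2 t a b c d
  have e : (ψ t c - ψ t b) * (σ * det a c d)
      = (ψ t d - ψ t c) * (σ * det a b c) + (ψ t c - ψ t a) * (σ * det b c d) := by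
    linear_combination σ * h
  have e1 : 0 < (ψ t c - ψ t a) * (σ * det b c d) := mul_pos (by linarith) h2
  have e2 : 0 < (ψ t d - ψ t c) * (σ * det a b c) := mul_pos (by linarith) h1
  have e3 : 0 < (ψ t c - ψ t b) * (σ * det a c d) := by linarith
  exact (pos_iff_pos_of_mul_pos e3).mp (by linarith)

/-- a cup or cap with `L` edges `x 0, …, x L` -/
structure Chain (S : Finset E) (t σ : ℝ) (L : ℕ) (x : ℕ → E) : Prop where
  mem : ∀ i ≤ L, x i ∈ S
  mono : ∀ i < L, ψ t (x i) < ψ t (x (i + 1))
  conv : ∀ i, i + 2 ≤ L → 0 < σ * det (x i) (x (i + 1)) (x (i + 2))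

namespace Chain

variable {S : Finset E} {t σ : ℝ} {L : ℕ} {x : ℕ → E}

lemma lt (h : Chain S t σ L x) {i j : ℕ} (hij : i < j) (hj : j ≤ L) :
    ψ t (x i) < ψ t (x j) := by
  induction j, hij using Nat.le_induction with
  | base => exact h.mono i (by omega)
  | succ j hij ih => exact (ih (by omega)).trans (h.mono j (by omega))

lemma le (h : Chain S t σ L x) {i j : ℕ} (hij : i ≤ j) (hj : j ≤ L) :
    ψ t (x i) ≤ ψ t (x j) := by
  rcases hij.lt_or_eq with h' | rfl
  · exact (h.lt h' hj).le
  · exact le_rfl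

lemma inj (h : Chain S t σ L x) {i j : ℕ} (hi : i ≤ L) (hj : j ≤ L) (hij : x i = x j) :
    i = j := by
  rcases lt_trichotomy i j with h' | h' | h'
  · have := h.lt h' hj
    rw [hij] at this
    exact absurd this (lt_irrefl _)
  · exact h'
  · have := h.lt h' hi
    rw [hij] at this
    exact absurd this (lt_irrefl _)

lemma conv1 (h : Chain S t σ L x) (d : ℕ) : ∀ i, i + 2 + d ≤ L →
    0 < σ * det (x i) (x (i + 1)) (x (i + 2 + d)) := by
  induction d with
  | zero => intro i hi; exact h.conv i hi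
  | succ d ih =>
    intro i hi
    have h1 := h.conv i (by omega)
    have h2 := ih (i + 1) (by omega)
    have e1 : i + 1 + 2 + d = i + 2 + (d + 1) := by omega
    rw [e1] at h2
    exact det_pos_abd (h.mono i (by omega)) (h.mono (i + 1) (by omega))
      (h.lt (by omega) (by omega)) h1 h2

lemma conv2 (h : Chain S t σ L x) (d : ℕ) : ∀ i k, i + 1 + d < k → k ≤ L →
    0 < σ * det (x i) (x (i + 1 + d)) (x k) := by
  induction d with
  | zero =>
    intro i k hk hL
    have := h.conv1 (k - (i + 2)) i (by omega)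
    have e : i + 2 + (k - (i + 2)) = k := by omega
    rwa [e] at this
  | succ d ih =>
    intro i k hk hL
    have h1 := ih (i + 1) k (by omega) hL
    have e : i + 1 + 1 + d = i + 1 + (d + 1) := by omega
    rw [e] at h1
    have h2 := h.conv1 (i + 1 + (d + 1) - (i + 2)) i (by omega)
    have e2 : i + 2 + (i + 1 + (d + 1) - (i + 2)) = i + 1 + (d + 1) := by omega
    rw [e2] at h2
    exact det_pos_acd (h.mono i (by omega)) (h.lt (by omega) (by omega))
      (h.lt (by omega) (by omega)) h2 h1

lemma conv3 (h : Chain S t σ L x) {i j k : ℕ} (hij : i < j) (hjk : j < k) (hk : k ≤ L) :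
    0 < σ * det (x i) (x j) (x k) := by
  have := h.conv2 (j - (i + 1)) i k (by omega) hk
  have e : i + 1 + (j - (i + 1)) = j := by omega
  rwa [e] at this

/-- every vertex other than the two ends is strictly on the inner side of an edge -/
lemma inner (h : Chain S t σ L x) {i m : ℕ} (hi : i + 1 ≤ L) (hm : m ≤ L) (h1 : m ≠ i)
    (h2 : m ≠ i + 1) : 0 < σ * det (x i) (x (i + 1)) (x m) := by
  rcases lt_or_gt_of_ne h1 with h' | h'
  · rw [← det_rot]
    exact h.conv3 h' (by omega) hi
  · exact h.conv3 (by omega) (by omega) hm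

/-- a line is crossed upwards at most once -/
lemma cross_unique (h : Chain S t σ L x) (u v w : ℝ) {i j : ℕ} (hij : i < j) (hj : j + 1 ≤ L)
    (h1 : u * (x i) 0 + v * (x i) 1 ≤ w) (h2 : w < u * (x (i + 1)) 0 + v * (x (i + 1)) 1)
    (h3 : u * (x j) 0 + v * (x j) 1 ≤ w) (h4 : w < u * (x (j + 1)) 0 + v * (x (j + 1)) 1) :
    False := by
  have hne : i + 1 ≠ j := by
    rintro rfl
    linarith
  have hlt : i + 1 < j := by omega
  have p1 := h.conv3 (i := i + 1) (j := j) (k := j + 1) hlt (by omega) hj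
  have p2 := h.conv3 (i := i) (j := i + 1) (k := j + 1) (by omega) (by omega) hj
  have p3 := h.conv3 (i := i) (j := j) (k := j + 1) (by omega) (by omega) hj
  have p4 := h.conv3 (i := i) (j := i + 1) (k := j) (by omega) (by omega) (by omega)
  have e := det_id3 u v w (x i) (x (i + 1)) (x j) (x (j + 1))
  have e' : (σ * det (x (i + 1)) (x j) (x (j + 1))) * (u * (x i) 0 + v * (x i) 1 - w)
      + (σ * det (x i) (x (i + 1)) (x (j + 1))) * (u * (x j) 0 + v * (x j) 1 - w)
      = (σ * det (x i) (x j) (x (j + 1))) * (u * (x (i + 1)) 0 + v * (x (i + 1)) 1 - w)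
      + (σ * det (x i) (x (i + 1)) (x j)) * (u * (x (j + 1)) 0 + v * (x (j + 1)) 1 - w) := by
    linear_combination σ * e
  have n1 := mul_nonpos_of_nonneg_of_nonpos p1.le (sub_nonpos.mpr h1)
  have n2 := mul_nonpos_of_nonneg_of_nonpos p2.le (sub_nonpos.mpr h3)
  have n3 := mul_pos p3 (sub_pos.mpr h2)
  have n4 := mul_pos p4 (sub_pos.mpr h4)
  linarith

/-- a point leaves the inner sides at most once -/
lemma leave_unique (h : Chain S t σ L x) (q : E) {i j : ℕ} (hij : i < j) (hj : j + 2 ≤ L)
    (h1 : σ * det (x (i + 1)) (x (i + 2)) q ≤ 0)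
    (h3 : 0 < σ * det (x j) (x (j + 1)) q) (h4 : σ * det (x (j + 1)) (x (j + 2)) q ≤ 0) :
    False := by
  -- `ψ q > ψ (x (j+1))`
  have hq : ψ t (x (j + 1)) < ψ t q := by
    have e := det_id1 t (x j) (x (j + 1)) (x (j + 2)) q
    have e' : (ψ t (x (j + 2)) - ψ t (x (j + 1))) * (σ * det (x j) (x (j + 1)) q)
        - (ψ t (x (j + 1)) - ψ t (x j)) * (σ * det (x (j + 1)) (x (j + 2)) q)
        = (ψ t q - ψ t (x (j + 1))) * (σ * det (x j) (x (j + 1)) (x (j + 2))) := by
      linear_combination σ * e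
    have a1 := mul_pos (sub_pos.mpr (h.mono (j + 1) (by omega))) h3
    have a2 := mul_nonpos_of_nonneg_of_nonpos (sub_pos.mpr (h.mono j (by omega))).le h4
    have a3 := h.conv j hj
    have a4 : 0 < (ψ t q - ψ t (x (j + 1))) * (σ * det (x j) (x (j + 1)) (x (j + 2))) := by
      rw [← e']
      have : x (j + 1 + 1) = x (j + 2) := rfl
      rw [this] at a1
      linarith
    have := (pos_iff_pos_of_mul_pos a4).mpr a3
    linarith
  -- going on from `i + 1` the value stays `≤ 0`
  have key : ∀ d, i + 1 + d ≤ j → σ * det (x (i + 1 + d)) (x (i + 2 + d)) q ≤ 0 := by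
    intro d
    induction d with
    | zero => intro _; exact h1
    | succ d ih =>
      intro hd
      have ihd := ih (by omega)
      have e := det_id1 t (x (i + 1 + d)) (x (i + 2 + d)) (x (i + 3 + d)) q
      have m1 : ψ t (x (i + 1 + d)) < ψ t (x (i + 2 + d)) := h.lt (by omega) (by omega)
      have m2 : ψ t (x (i + 2 + d)) < ψ t (x (i + 3 + d)) := h.lt (by omega) (by omega)
      have m3 : ψ t (x (i + 2 + d)) ≤ ψ t (x (j + 1)) := h.le (by omega) (by omega)
      have c : 0 < σ * det (x (i + 1 + d)) (x (i + 2 + d)) (x (i + 3 + d)) :=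
        h.conv3 (by omega) (by omega) (by omega)
      have e' : (ψ t (x (i + 2 + d)) - ψ t (x (i + 1 + d)))
            * (σ * det (x (i + 2 + d)) (x (i + 3 + d)) q)
          = (ψ t (x (i + 3 + d)) - ψ t (x (i + 2 + d)))
            * (σ * det (x (i + 1 + d)) (x (i + 2 + d)) q)
          - (ψ t q - ψ t (x (i + 2 + d)))
            * (σ * det (x (i + 1 + d)) (x (i + 2 + d)) (x (i + 3 + d))) := by
        linear_combination (-σ) * e
      have b1 := mul_nonpos_of_nonneg_of_nonpos (sub_pos.mpr m2).le ihd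
      have b2 : 0 < (ψ t q - ψ t (x (i + 2 + d)))
            * (σ * det (x (i + 1 + d)) (x (i + 2 + d)) (x (i + 3 + d))) :=
        mul_pos (by linarith) c
      have b3 : (ψ t (x (i + 2 + d)) - ψ t (x (i + 1 + d)))
            * (σ * det (x (i + 2 + d)) (x (i + 3 + d)) q) < 0 := by linarith
      have b5 : σ * det (x (i + 2 + d)) (x (i + 3 + d)) q < 0 := by
        by_contra hcon
        push Not at hcon
        have := mul_nonneg (sub_pos.mpr m1).le hcon
        linarith
      have e1 : i + 1 + (d + 1) = i + 2 + d := by omega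
      have e2 : i + 2 + (d + 1) = i + 3 + d := by omega
      rw [e1, e2]
      exact b5.le
  have := key (j - (i + 1)) (by omega)
  have e1 : i + 1 + (j - (i + 1)) = j := by omega
  have e2 : i + 2 + (j - (i + 1)) = j + 1 := by omega
  rw [e1, e2] at this
  linarith

end Chain

end Pool.Agent.Helper456.ES
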