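import Pool.Agent.Helper456.ES.Core

/-!
# The circular poset argument (MP_ec6744_co)
-/

namespace Pool.Agent.Helper456.ES

open Real Finset

lemma ht_eq_of_cs {p : ℝ × ℝ} {t t' : ℝ} (h : ∃ m : ℤ, t' = t - m • (2 * π)) :
    ht p t' = ht p t := by
  obtain ⟨m, rfl⟩ := h
  unfold ht
  have h1 : cos (t - m • (2 * π)) = cos t := by
    rw [zsmul_eq_mul]; exact Real.cos_sub_int_mul_two_pi t m
  have h2 : sin (t - m • (2 * π)) = sin t := by
    rw [zsmul_eq_mul]; exact Real.sin_sub_int_mul_two_pi t m
  rw [h1, h2]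

/-- normalised version: the angles are in `[φ x, φ x + 2π)`. -/
theorem core_norm {α : Type*} [Fintype α] [DecidableEq α] {P Q : α → ℝ × ℝ} {φ : α → ℝ}
    (hPQ : ∀ a, ht (P a) (φ a) = ht (Q a) (φ a))
    (hnd : ∀ a b, a ≠ b → S P Q b (φ a) ≠ S P Q a (φ a))
    (n' s : ℕ)
    (hcap : ∀ a, (univ.filter (fun b => S P Q a (φ a) < S P Q b (φ a))).card + 1 ≤ n')
    (hcard : (s + 2) * n' ≤ Fintype.card α) (x : α)
    (hx : (univ.filter (fun a => S P Q a (φ a) < S P Q x (φ a))).card + 1 ≤ n')
    (hlo : ∀ a, φ x ≤ φ a) (hhi : ∀ a, φ a < φ x + 2 * π) :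
    ∃ W : Finset α, W.card = s + 2 ∧
      ∀ a ∈ W, ∀ b ∈ W, a ≠ b → S P Q b (φ a) < S P Q a (φ a) := by
  classical
  set Px : Finset α := univ.filter (fun a => a ≠ x ∧ Compat P Q φ a x) with hPx
  set O := univ.filter (fun b => S P Q x (φ x) < S P Q b (φ x)) with hO
  set I := univ.filter (fun a => S P Q a (φ a) < S P Q x (φ a)) with hI
  have hcover : (univ : Finset α) ⊆ Px ∪ ({x} ∪ (O ∪ I)) := by
    intro a _
    by_cases hax : a = x
    · subst hax; simp
    · by_cases h1 : S P Q x (φ x) < S P Q a (φ x)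
      · simp [hO, h1]
      · by_cases h2 : S P Q a (φ a) < S P Q x (φ a)
        · simp [hI, h2]
        · have h3 : Compat P Q φ a x :=
            ⟨lt_of_le_of_ne (not_lt.mp h2) (hnd a x hax),
              lt_of_le_of_ne (not_lt.mp h1) (hnd x a (Ne.symm hax))⟩
          simp [hPx, hax, h3]
  have hc1 : Fintype.card α ≤ Px.card + (1 + (O.card + I.card)) := by
    rw [← Finset.card_univ]
    refine (card_le_card hcover).trans ?_
    refine (card_union_le _ _).trans ?_
    gcongr
    refine (card_union_le _ _).trans ?_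
    rw [card_singleton]
    gcongr
    exact card_union_le _ _
  have hOc := hcap x
  rw [← hO] at hOc
  have hbig : s * n' < Px.card := by
    have : (s + 2) * n' = s * n' + 2 * n' := by ring
    omega
  have hmemP : ∀ a, a ∈ Px ↔ a ≠ x ∧ Compat P Q φ a x := by
    intro a; simp [hPx]
  let r : α → α → Prop := fun a b => φ a < φ b ∧ (π ≤ φ b - φ a ∨ Compat P Q φ a b)
  have htr : ∀ a b c, r a b → r b c → r a c := by
    rintro a b c ⟨h1, h2⟩ ⟨h3, h4⟩
    refine ⟨h1.trans h3, ?_⟩
    by_cases h : π ≤ φ c - φ a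
    · exact Or.inl h
    · push Not at h
      right
      rcases h2 with h2 | h2
      · linarith
      rcases h4 with h4 | h4
      · linarith
      exact compat_trans hPQ h1 h3 h h2 h4
  have hanti : ∀ A ⊆ Px, (∀ a ∈ A, ∀ b ∈ A, ¬ r a b) → A.card ≤ n' := by
    intro A hAP hA
    rcases A.eq_empty_or_nonempty with rfl | hne
    · simp
    obtain ⟨a, ha, hacap⟩ := antichain_cap hPQ hnd A hne (by
      intro a ha b hb hab
      have h := hA a ha b hb
      simp only [r, not_and, not_or, not_le] at h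
      exact h hab)
    have hsub : A.erase a ⊆ univ.filter (fun b => S P Q a (φ a) < S P Q b (φ a)) := by
      intro b hb
      rw [mem_erase] at hb
      rw [mem_filter]
      exact ⟨mem_univ _, lt_of_le_of_ne (hacap b hb.2) (Ne.symm (hnd a b (Ne.symm hb.1)))⟩
    have h1 := card_le_card hsub
    have h2 := hcap a
    have h3 := card_erase_of_mem ha
    omega
  obtain ⟨l, hl, hlP, hlr⟩ := mirsky r htr n' s Px hanti hbig
  have hcompat : ∀ a ∈ Px, ∀ b ∈ Px, r a b → Compat P Q φ a b := by
    intro a ha b hb hab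
    rw [hmemP] at ha hb
    rcases hab.2 with h | h
    · refine compat_close hPQ ?_ (hhi b) h ha.2 hb.2
      rcases (hlo a).lt_or_eq with h' | h'
      · exact h'
      · exfalso
        have h1 := ha.2.1
        have h2 := ha.2.2
        rw [← h'] at h1
        linarith
    · exact h
  have hnodup : l.Nodup := by
    refine hlr.imp ?_
    intro a b hab h
    subst h
    exact lt_irrefl _ hab.1
  have hlc : l.Pairwise (fun a b => Compat P Q φ a b) := by
    refine hlr.imp_of_mem ?_
    intro a b ha hb hab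
    exact hcompat a (hlP a ha) b (hlP b hb) hab
  have hsymm : Std.Symm (fun a b => Compat P Q φ a b) := ⟨fun a b h => h.symm⟩
  have hxl : x ∉ l.toFinset := by
    rw [List.mem_toFinset]
    intro h
    have := hlP x h
    rw [hmemP] at this
    exact this.1 rfl
  refine ⟨insert x l.toFinset, ?_, ?_⟩
  · rw [card_insert_of_notMem hxl, List.toFinset_card_of_nodup hnodup, hl]
  · intro a ha b hb hab
    rw [mem_insert, List.mem_toFinset] at ha hb
    rcases ha with rfl | ha
    · rcases hb with rfl | hb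
      · exact absurd rfl hab
      · exact ((hmemP b).mp (hlP b hb)).2.2
    · rcases hb with rfl | hb
      · exact ((hmemP a).mp (hlP a ha)).2.1
      · exact (hlc.forall ha hb hab).1

theorem core {α : Type*} [Fintype α] [DecidableEq α] {P Q : α → ℝ × ℝ} {φ : α → ℝ}
    (hPQ : ∀ a, ht (P a) (φ a) = ht (Q a) (φ a))
    (hnd : ∀ a b, a ≠ b → S P Q b (φ a) ≠ S P Q a (φ a))
    (n' s : ℕ)
    (hcap : ∀ a, (univ.filter (fun b => S P Q a (φ a) < S P Q b (φ a))).card + 1 ≤ n')
    (hn' : 1 ≤ n') (hcard : (s + 2) * n' ≤ Fintype.card α) :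
    ∃ W : Finset α, W.card = s + 2 ∧
      ∀ a ∈ W, ∀ b ∈ W, a ≠ b → S P Q b (φ a) < S P Q a (φ a) := by
  classical
  -- an element of small in-degree
  have hne : (univ : Finset α).Nonempty := by
    rw [← card_pos, card_univ]
    have : 1 * 1 ≤ (s + 2) * n' := Nat.mul_le_mul (by omega) hn'
    omega
  obtain ⟨x, hx⟩ : ∃ x : α, (univ.filter (fun a => S P Q a (φ a) < S P Q x (φ a))).card + 1 ≤ n' := by
    by_contra hcon
    push Not at hcon
    have h1 : ∑ x : α, (univ.filter (fun a => S P Q a (φ a) < S P Q x (φ a))).card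
        = ∑ a : α, (univ.filter (fun b => S P Q a (φ a) < S P Q b (φ a))).card := by
      simp only [card_filter]
      rw [sum_comm]
    have h2 : ∑ a : α, (univ.filter (fun b => S P Q a (φ a) < S P Q b (φ a))).card
        < ∑ x : α, (univ.filter (fun a => S P Q a (φ a) < S P Q x (φ a))).card := by
      refine sum_lt_sum_of_nonempty hne ?_
      intro a _
      have := hcap a
      have := hcon a
      omega
    omega
  have h2pi : (0 : ℝ) < 2 * π := by positivity
  set φ' : α → ℝ := fun a => toIcoMod h2pi (φ x) (φ a) with hφ'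
  have hht : ∀ (p : ℝ × ℝ) (a : α), ht p (φ' a) = ht p (φ a) := by
    intro p a
    refine ht_eq_of_cs ⟨toIcoDiv h2pi (φ x) (φ a), ?_⟩
    rfl
  have hS : ∀ a b : α, S P Q b (φ' a) = S P Q b (φ a) := by
    intro a b
    unfold S
    rw [hht, hht]
  have hφx : φ' x = φ x := by
    show toIcoMod h2pi (φ x) (φ x) = φ x
    exact toIcoMod_apply_left h2pi (φ x)
  obtain ⟨W, hW, hWp⟩ := core_norm (P := P) (Q := Q) (φ := φ')
    (by intro a; rw [hht, hht]; exact hPQ a)
    (by intro a b hab; rw [hS, hS]; exact hnd a b hab)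
    n' s
    (by intro a; simp only [hS]; exact hcap a)
    hcard x
    (by simp only [hS]; exact hx)
    (by
      intro a
      rw [hφx]
      exact left_le_toIcoMod h2pi _ _)
    (by
      intro a
      rw [hφx]
      exact toIcoMod_lt_right h2pi _ _)
  refine ⟨W, hW, ?_⟩
  intro a ha b hb hab
  have := hWp a ha b hb hab
  rwa [hS, hS] at this

end Pool.Agent.Helper456.ES
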