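import Mathlib

/-!
# Directed segments in the plane and pairwise compatible families (MP_ec6744_co)

`α` is a finite family of segments `[P a, Q a]`, each with a direction (angle) `φ a` orthogonal to
it. The cap of `a` consists of the `b` for which an end of `b` is strictly higher than `a` in the
direction `φ a`. If every cap has at most `n' - 1` members and `card α ≥ s * n'` then there are `s`
segments none of which is in the cap of another.
-/

namespace Pool.Agent.Helper456.ES

open Real Finset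

/-- height of the point `p` in direction `t` -/
noncomputable def ht (p : ℝ × ℝ) (t : ℝ) : ℝ := p.1 * cos t + p.2 * sin t

lemma ht_ident (p q : ℝ × ℝ) (a b c : ℝ) :
    (ht p b - ht q b) * sin (c - a)
      = (ht p a - ht q a) * sin (c - b) + (ht p c - ht q c) * sin (b - a) := by
  unfold ht
  rw [sin_sub, sin_sub, sin_sub]
  ring

lemma ht_add_two_pi (p : ℝ × ℝ) (t : ℝ) : ht p (t + 2 * π) = ht p t := by
  unfold ht
  rw [cos_add_two_pi, sin_add_two_pi]

lemma neg_left {p q : ℝ × ℝ} {a b c : ℝ} (hab : a < b) (hbc : b < c) (hac : c - a ≤ π)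
    (hb : ht p b ≤ ht q b) (hc : ht q c < ht p c) : ht p a < ht q a := by
  have h := ht_ident p q a b c
  have s1 : 0 ≤ sin (c - a) := sin_nonneg_of_nonneg_of_le_pi (by linarith) hac
  have s2 : 0 < sin (c - b) := sin_pos_of_pos_of_lt_pi (by linarith) (by linarith)
  have s3 : 0 < sin (b - a) := sin_pos_of_pos_of_lt_pi (by linarith) (by linarith)
  by_contra hcon
  push Not at hcon
  have e1 : (ht p b - ht q b) * sin (c - a) ≤ 0 :=
    mul_nonpos_of_nonpos_of_nonneg (by linarith) s1
  have e2 : 0 ≤ (ht p a - ht q a) * sin (c - b) := mul_nonneg (by linarith) s2.le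
  have e3 : 0 < (ht p c - ht q c) * sin (b - a) := mul_pos (by linarith) s3
  linarith

lemma neg_right {p q : ℝ × ℝ} {a b c : ℝ} (hab : a < b) (hbc : b < c) (hac : c - a ≤ π)
    (hb : ht p b ≤ ht q b) (ha : ht q a < ht p a) : ht p c < ht q c := by
  have h := ht_ident p q a b c
  have s1 : 0 ≤ sin (c - a) := sin_nonneg_of_nonneg_of_le_pi (by linarith) hac
  have s2 : 0 < sin (c - b) := sin_pos_of_pos_of_lt_pi (by linarith) (by linarith)
  have s3 : 0 < sin (b - a) := sin_pos_of_pos_of_lt_pi (by linarith) (by linarith)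
  by_contra hcon
  push Not at hcon
  have e1 : (ht p b - ht q b) * sin (c - a) ≤ 0 :=
    mul_nonpos_of_nonpos_of_nonneg (by linarith) s1
  have e2 : 0 < (ht p a - ht q a) * sin (c - b) := mul_pos (by linarith) s2
  have e3 : 0 ≤ (ht p c - ht q c) * sin (b - a) := mul_nonneg (by linarith) s3.le
  linarith

lemma no_bump {p q : ℝ × ℝ} {a b c : ℝ} (hab : a < b) (hbc : b < c) (hac : c - a < π)
    (ha : ht p a ≤ ht q a) (hc : ht p c < ht q c) : ht p b < ht q b := by
  have h := ht_ident p q a b c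
  have s1 : 0 < sin (c - a) := sin_pos_of_pos_of_lt_pi (by linarith) hac
  have s2 : 0 < sin (c - b) := sin_pos_of_pos_of_lt_pi (by linarith) (by linarith)
  have s3 : 0 < sin (b - a) := sin_pos_of_pos_of_lt_pi (by linarith) (by linarith)
  by_contra hcon
  push Not at hcon
  have e1 : 0 ≤ (ht p b - ht q b) * sin (c - a) := mul_nonneg (by linarith) s1.le
  have e2 : (ht p a - ht q a) * sin (c - b) ≤ 0 :=
    mul_nonpos_of_nonpos_of_nonneg (by linarith) s2.le
  have e3 : (ht p c - ht q c) * sin (b - a) < 0 := mul_neg_of_neg_of_pos (by linarith) s3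
  linarith

lemma no_bump' {p q : ℝ × ℝ} {a b c : ℝ} (hab : a < b) (hbc : b < c) (hac : c - a < π)
    (ha : ht p a < ht q a) (hc : ht p c ≤ ht q c) : ht p b < ht q b := by
  have h := ht_ident p q a b c
  have s1 : 0 < sin (c - a) := sin_pos_of_pos_of_lt_pi (by linarith) hac
  have s2 : 0 < sin (c - b) := sin_pos_of_pos_of_lt_pi (by linarith) (by linarith)
  have s3 : 0 < sin (b - a) := sin_pos_of_pos_of_lt_pi (by linarith) (by linarith)
  by_contra hcon
  push Not at hcon
  have e1 : 0 ≤ (ht p b - ht q b) * sin (c - a) := mul_nonneg (by linarith) s1.le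
  have e2 : (ht p a - ht q a) * sin (c - b) < 0 := mul_neg_of_neg_of_pos (by linarith) s2
  have e3 : (ht p c - ht q c) * sin (b - a) ≤ 0 :=
    mul_nonpos_of_nonpos_of_nonneg (by linarith) s3.le
  linarith

section seg

variable {α : Type*} (P Q : α → ℝ × ℝ) (φ : α → ℝ)

/-- support function of the segment `[P a, Q a]` -/
noncomputable def S (a : α) (t : ℝ) : ℝ := max (ht (P a) t) (ht (Q a) t)

/-- `e` is an end of the segment `a` -/
def IsEnd (a : α) (e : ℝ × ℝ) : Prop := e = P a ∨ e = Q a

/-- neither of the two segments is in the cap of the other one -/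
def Compat (a b : α) : Prop :=
  S P Q b (φ a) < S P Q a (φ a) ∧ S P Q a (φ b) < S P Q b (φ b)

variable {P Q φ}

lemma ht_le_S {a : α} {e : ℝ × ℝ} (h : IsEnd P Q a e) (t : ℝ) : ht e t ≤ S P Q a t := by
  rcases h with rfl | rfl
  · exact le_max_left _ _
  · exact le_max_right _ _

lemma exists_end (a : α) (t : ℝ) : ∃ e, IsEnd P Q a e ∧ ht e t = S P Q a t := by
  rcases max_choice (ht (P a) t) (ht (Q a) t) with h | h
  · exact ⟨P a, Or.inl rfl, h.symm⟩
  · exact ⟨Q a, Or.inr rfl, h.symm⟩

lemma own (hPQ : ∀ a, ht (P a) (φ a) = ht (Q a) (φ a)) {a : α} {e : ℝ × ℝ}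
    (h : IsEnd P Q a e) : ht e (φ a) = S P Q a (φ a) := by
  unfold S
  rcases h with rfl | rfl
  · rw [← hPQ a, max_self]
  · rw [hPQ a, max_self]

lemma S_add_two_pi (a : α) (t : ℝ) : S P Q a (t + 2 * π) = S P Q a t := by
  unfold S
  rw [ht_add_two_pi, ht_add_two_pi]

lemma Compat.symm {a b : α} (h : Compat P Q φ a b) : Compat P Q φ b a := ⟨h.2, h.1⟩

lemma compat_trans (hPQ : ∀ a, ht (P a) (φ a) = ht (Q a) (φ a)) {a b c : α}
    (hab : φ a < φ b) (hbc : φ b < φ c) (hac : φ c - φ a < π)
    (h1 : Compat P Q φ a b) (h2 : Compat P Q φ b c) : Compat P Q φ a c := by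
  constructor
  · obtain ⟨e, he, hes⟩ := exists_end (P := P) (Q := Q) c (φ a)
    have hb : IsEnd P Q b (P b) := Or.inl rfl
    have k1 : ht e (φ b) ≤ ht (P b) (φ b) := by
      rw [own hPQ hb]
      exact (ht_le_S he _).trans h2.1.le
    have k2 : ht (P b) (φ c) < ht e (φ c) := by
      rw [own hPQ he]
      exact lt_of_le_of_lt (ht_le_S hb _) h2.2
    have k3 := neg_left hab hbc hac.le k1 k2
    rw [← hes]
    exact k3.trans_le ((ht_le_S hb _).trans h1.1.le)
  · obtain ⟨e, he, hes⟩ := exists_end (P := P) (Q := Q) a (φ c)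
    have hb : IsEnd P Q b (P b) := Or.inl rfl
    have k1 : ht e (φ b) ≤ ht (P b) (φ b) := by
      rw [own hPQ hb]
      exact (ht_le_S he _).trans h1.2.le
    have k2 : ht (P b) (φ a) < ht e (φ a) := by
      rw [own hPQ he]
      exact lt_of_le_of_lt (ht_le_S hb _) h1.1
    have k3 := neg_right hab hbc hac.le k1 k2
    rw [← hes]
    exact k3.trans_le ((ht_le_S hb _).trans h2.2.le)

/-- closing up through `x`: `a` and `b` lie on the two sides of `x`, at a distance at least `π`
when going the long way round. -/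
lemma compat_close (hPQ : ∀ a, ht (P a) (φ a) = ht (Q a) (φ a)) {a b x : α}
    (hxa : φ x < φ a) (hbx : φ b < φ x + 2 * π) (hab : π ≤ φ b - φ a)
    (ha : Compat P Q φ a x) (hb : Compat P Q φ b x) : Compat P Q φ a b := by
  have hx : IsEnd P Q x (P x) := Or.inl rfl
  constructor
  · -- S b (φ a) < S a (φ a)
    obtain ⟨e, he, hes⟩ := exists_end (P := P) (Q := Q) b (φ a)
    have k1 : ht e (φ x + 2 * π) ≤ ht (P x) (φ x + 2 * π) := by
      rw [ht_add_two_pi, ht_add_two_pi, own hPQ hx]
      exact (ht_le_S he _).trans hb.2.le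
    have k2 : ht (P x) (φ b) < ht e (φ b) := by
      rw [own hPQ he]
      exact lt_of_le_of_lt (ht_le_S hx _) hb.1
    have k3 : ht e (φ a + 2 * π) < ht (P x) (φ a + 2 * π) :=
      neg_right (by linarith) (by linarith) (by linarith) k1 k2
    rw [ht_add_two_pi, ht_add_two_pi] at k3
    rw [← hes]
    exact k3.trans_le ((ht_le_S hx _).trans ha.1.le)
  · obtain ⟨e, he, hes⟩ := exists_end (P := P) (Q := Q) a (φ b)
    have k1 : ht e (φ x + 2 * π) ≤ ht (P x) (φ x + 2 * π) := by
      rw [ht_add_two_pi, ht_add_two_pi, own hPQ hx]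
      exact (ht_le_S he _).trans ha.2.le
    have k2 : ht (P x) (φ a + 2 * π) < ht e (φ a + 2 * π) := by
      rw [ht_add_two_pi, ht_add_two_pi, own hPQ he]
      exact lt_of_le_of_lt (ht_le_S hx _) ha.1
    have k3 : ht e (φ b) < ht (P x) (φ b) :=
      neg_left (by linarith) (by linarith) (by linarith) k1 k2
    rw [← hes]
    exact k3.trans_le ((ht_le_S hx _).trans hb.1.le)

/-- the key step of the antichain lemma -/
lemma compat_of_cross (hPQ : ∀ a, ht (P a) (φ a) = ht (Q a) (φ a)) {f g : α} {a b : ℝ}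
    (hga : φ g ≤ a) (hab : a < b) (hbf : b ≤ φ f) (hfg : φ f - φ g < π)
    (ha : S P Q f a ≤ S P Q g a) (hb : S P Q g b ≤ S P Q f b) :
    S P Q f (φ g) ≤ S P Q g (φ g) ∧ S P Q g (φ f) ≤ S P Q f (φ f) := by
  constructor
  · by_contra hcon
    push Not at hcon
    obtain ⟨f', hf', hfe⟩ := exists_end (P := P) (Q := Q) f (φ g)
    have hga' : φ g < a := by
      rcases hga.lt_or_eq with h | h
      · exact h
      · subst h
        exact absurd ha (not_le.mpr hcon)
    obtain ⟨g', hg', hge⟩ := exists_end (P := P) (Q := Q) g a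
    have k1 : ht f' a ≤ ht g' a := by
      rw [hge]
      exact (ht_le_S hf' _).trans ha
    have k2 : ht g' (φ g) < ht f' (φ g) := by
      rw [own hPQ hg', hfe]
      exact hcon
    have k3 : ht f' (φ f) < ht g' (φ f) :=
      neg_right hga' (lt_of_lt_of_le hab hbf) hfg.le k1 k2
    obtain ⟨f2, hf2, hfe2⟩ := exists_end (P := P) (Q := Q) f b
    have k4 : ht g' b ≤ ht f2 b := by
      rw [hfe2]
      exact (ht_le_S hg' _).trans hb
    have k5 : ht f2 (φ f) < ht g' (φ f) := by
      rw [own hPQ hf2, ← own hPQ hf']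
      exact k3
    have hbf' : b < φ f := by
      rcases hbf.lt_or_eq with h | h
      · exact h
      · subst h
        exact absurd k4 (not_le.mpr k5)
    have k6 : ht f2 a ≤ ht g' a := by
      rw [hge]
      exact (ht_le_S hf2 _).trans ha
    have k7 := no_bump hab hbf' (by linarith) k6 k5
    linarith
  · by_contra hcon
    push Not at hcon
    obtain ⟨g', hg', hge⟩ := exists_end (P := P) (Q := Q) g (φ f)
    have hbf' : b < φ f := by
      rcases hbf.lt_or_eq with h | h
      · exact h
      · subst h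
        exact absurd hb (not_le.mpr hcon)
    obtain ⟨f', hf', hfe⟩ := exists_end (P := P) (Q := Q) f b
    have k1 : ht g' b ≤ ht f' b := by
      rw [hfe]
      exact (ht_le_S hg' _).trans hb
    have k2 : ht f' (φ f) < ht g' (φ f) := by
      rw [own hPQ hf', hge]
      exact hcon
    have k3 : ht g' (φ g) < ht f' (φ g) :=
      neg_left (lt_of_le_of_lt hga hab) hbf' hfg.le k1 k2
    obtain ⟨g2, hg2, hge2⟩ := exists_end (P := P) (Q := Q) g a
    have k4 : ht f' a ≤ ht g2 a := by
      rw [hge2]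
      exact (ht_le_S hf' _).trans ha
    have k5 : ht g2 (φ g) < ht f' (φ g) := by
      rw [own hPQ hg2, ← own hPQ hg']
      exact k3
    have hga' : φ g < a := by
      rcases hga.lt_or_eq with h | h
      · exact h
      · subst h
        exact absurd k4 (not_le.mpr k5)
    have k6 : ht g2 b ≤ ht f' b := by
      rw [hfe]
      exact (ht_le_S hg2 _).trans hb
    have k7 := no_bump' hga' hab (by linarith) k5 k6
    linarith

/-- In a set of segments whose angles are pairwise less than `π` apart and which are pairwise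
incompatible, one member has all the others in its cap. -/
lemma antichain_cap (hPQ : ∀ a, ht (P a) (φ a) = ht (Q a) (φ a))
    (hnd : ∀ a b, a ≠ b → S P Q b (φ a) ≠ S P Q a (φ a))
    (A : Finset α) (hA : A.Nonempty)
    (hanti : ∀ a ∈ A, ∀ b ∈ A, φ a < φ b → φ b - φ a < π ∧ ¬ Compat P Q φ a b) :
    ∃ a ∈ A, ∀ b ∈ A, S P Q a (φ a) ≤ S P Q b (φ a) := by
  classical
  by_contra hcon
  push Not at hcon
  -- lowest element at time `φ a`
  have hmin : ∀ a, ∃ e ∈ A, ∀ b ∈ A, S P Q e (φ a) ≤ S P Q b (φ a) := fun a =>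
    A.exists_min_image (fun b => S P Q b (φ a)) hA
  choose e heA hemin using hmin
  have hne : ∀ a, φ (e a) ≠ φ a := by
    intro a h
    obtain ⟨b, hb, hlt⟩ := hcon (e a) (heA a)
    have := hemin a b hb
    rw [h] at hlt
    linarith
  obtain ⟨a0, ha0, ha0min⟩ := A.exists_min_image φ hA
  have hF : (A.filter (fun a => φ a < φ (e a))).Nonempty :=
    ⟨a0, mem_filter.mpr ⟨ha0, lt_of_le_of_ne (ha0min _ (heA a0)) (Ne.symm (hne a0))⟩⟩
  obtain ⟨a1, ha1, ha1max⟩ := (A.filter (fun a => φ a < φ (e a))).exists_max_image φ hF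
  rw [mem_filter] at ha1
  have hG : (A.filter (fun b => φ a1 < φ b)).Nonempty :=
    ⟨e a1, mem_filter.mpr ⟨heA a1, ha1.2⟩⟩
  obtain ⟨b1, hb1, hb1min⟩ := (A.filter (fun b => φ a1 < φ b)).exists_min_image φ hG
  rw [mem_filter] at hb1
  have hb1F : ¬ φ b1 < φ (e b1) := by
    intro h
    have := ha1max b1 (mem_filter.mpr ⟨hb1.1, h⟩)
    linarith [hb1.2]
  have hgb : φ (e b1) < φ b1 := lt_of_le_of_ne (not_lt.mp hb1F) (hne b1)
  have hga : φ (e b1) ≤ φ a1 := by
    by_contra h
    push Not at h
    have := hb1min (e b1) (mem_filter.mpr ⟨heA b1, h⟩)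
    linarith
  have hbf : φ b1 ≤ φ (e a1) := hb1min (e a1) (mem_filter.mpr ⟨heA a1, ha1.2⟩)
  have hgf : φ (e b1) < φ (e a1) := by linarith [hb1.2]
  obtain ⟨hpi, hinc⟩ := hanti (e b1) (heA b1) (e a1) (heA a1) hgf
  obtain ⟨c1, c2⟩ := compat_of_cross hPQ hga hb1.2 hbf hpi
    (hemin a1 _ (heA b1)) (hemin b1 _ (heA a1))
  have hne' : e b1 ≠ e a1 := fun h => by rw [h] at hgf; exact lt_irrefl _ hgf
  exact hinc ⟨lt_of_le_of_ne c1 (hnd _ _ hne'), lt_of_le_of_ne c2 (hnd _ _ hne'.symm)⟩

end seg

/-- Mirsky's theorem, in the form needed here. -/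
lemma mirsky {α : Type*} [DecidableEq α] (r : α → α → Prop) (htr : ∀ a b c, r a b → r b c → r a c)
    (w : ℕ) : ∀ (m : ℕ) (T : Finset α),
    (∀ A ⊆ T, (∀ a ∈ A, ∀ b ∈ A, ¬ r a b) → A.card ≤ w) → m * w < T.card →
    ∃ l : List α, l.length = m + 1 ∧ (∀ a ∈ l, a ∈ T) ∧ l.Pairwise r := by
  classical
  intro m
  induction m with
  | zero =>
    intro T _ hT
    rw [Nat.zero_mul] at hT
    obtain ⟨a, ha⟩ := Finset.card_pos.mp hT
    exact ⟨[a], rfl, by simpa using ha, List.pairwise_singleton _ _⟩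
  | succ m ih =>
    intro T hA hT
    set M := T.filter (fun a => ∀ b ∈ T, ¬ r b a) with hM
    have hMc : M.card ≤ w := hA M (filter_subset _ _) (by
      intro a ha b hb
      exact (mem_filter.mp hb).2 a (mem_filter.mp ha).1)
    have hsub : M ⊆ T := filter_subset _ _
    have hcard : (T \ M).card = T.card - M.card := card_sdiff_of_subset hsub
    have h1 : m * w < (T \ M).card := by
      rw [hcard]
      have : (m + 1) * w = m * w + w := by ring
      omega
    obtain ⟨l, hl, hlT, hlp⟩ := ih (T \ M) (fun A hAT h => hA A (hAT.trans sdiff_subset) h) h1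
    match l, hl, hlT, hlp with
    | [], hl, _, _ => simp at hl
    | c :: l', hl, hlT, hlp =>
      have hc := hlT c (by simp)
      rw [mem_sdiff, hM, mem_filter] at hc
      have hc2 : ∃ b ∈ T, r b c := by
        by_contra h
        push Not at h
        exact hc.2 ⟨hc.1, h⟩
      obtain ⟨b, hb, hbc⟩ := hc2
      refine ⟨b :: c :: l', by simpa using hl, ?_, ?_⟩
      · intro a ha
        rcases List.mem_cons.mp ha with rfl | ha
        · exact hb
        · exact (mem_sdiff.mp (hlT a ha)).1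
      · refine List.pairwise_cons.mpr ⟨?_, hlp⟩
        intro d hd
        rcases List.mem_cons.mp hd with rfl | hd
        · exact hbc
        · exact htr _ _ _ hbc ((List.pairwise_cons.mp hlp).1 d hd)

end Pool.Agent.Helper456.ES
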