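import Pool.Agent.Helper456.ES.Hull

/-!
# Decomposition into long cups and caps, with good edges (MP_ec6744_co)
-/

namespace Pool.Agent.Helper456.ES

open Real Finset
open scoped Classical

/-- `G` is a family of directed edges `(p, p⁺, σ)` with ends in `S`, whose caps (with respect to
`P`) have at most `β` points, coming from `c` chains. -/
structure Good (P : Finset E) (β : ℕ) (S : Finset E) (c : ℕ) (G : Finset (E × E × ℝ)) :
    Prop where
  mem1 : ∀ a ∈ G, a.1 ∈ S
  mem2 : ∀ a ∈ G, a.2.1 ∈ S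
  sgn : ∀ a ∈ G, a.2.2 = 1 ∨ a.2.2 = -1
  ne : ∀ a ∈ G, a.1 ≠ a.2.1
  cap : ∀ a ∈ G, (P.filter (fun q => 0 < a.2.2 * det a.1 a.2.1 q)).card ≤ β
  cross : ∀ u v w : ℝ, (G.filter (fun a => u * a.1 0 + v * a.1 1 ≤ w ∧
    w < u * a.2.1 0 + v * a.2.1 1)).card ≤ c
  inj : ∀ a ∈ G, ∀ b ∈ G, a.1 = b.1 → a = b
  nd : ∀ a ∈ G, ∀ b ∈ G, a ≠ b →
    max (a.2.2 * det a.1 a.2.1 b.1) (a.2.2 * det a.1 a.2.1 b.2.1) ≠ 0

lemma Good.empty (P : Finset E) (β : ℕ) (S : Finset E) : Good P β S 0 ∅ :=
  ⟨by simp, by simp, by simp, by simp, by simp, by simp, by simp, by simp⟩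

lemma Good.mono {P : Finset E} {β : ℕ} {S S' : Finset E} {c : ℕ} {G : Finset (E × E × ℝ)}
    (h : Good P β S c G) (hS : S ⊆ S') : Good P β S' c G :=
  ⟨fun a ha => hS (h.mem1 a ha), fun a ha => hS (h.mem2 a ha), h.sgn, h.ne, h.cap, h.cross,
    h.inj, h.nd⟩

lemma max_ne_zero {x y : ℝ} (hx : x ≠ 0) (hy : y ≠ 0) : max x y ≠ 0 := by
  rcases max_choice x y with h | h
  · rw [h]; exact hx
  · rw [h]; exact hy

lemma Good.union {P : Finset E} (hP : GP P) {β : ℕ} {S₁ S₂ : Finset E} {c₁ c₂ : ℕ}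
    {G₁ G₂ : Finset (E × E × ℝ)}
    (h₁ : Good P β S₁ c₁ G₁) (h₂ : Good P β S₂ c₂ G₂) (hd : Disjoint S₁ S₂)
    (hS₁ : S₁ ⊆ P) (hS₂ : S₂ ⊆ P) : Good P β (S₁ ∪ S₂) (c₁ + c₂) (G₁ ∪ G₂) := by
  have hne : ∀ p ∈ S₁, ∀ q ∈ S₂, p ≠ q := by
    intro p hp q hq h
    subst h
    exact (disjoint_left.mp hd hp) hq
  have hσ : ∀ s : ℝ, (s = 1 ∨ s = -1) → s ≠ 0 := by
    rintro s (rfl | rfl) <;> norm_num
  refine ⟨?_, ?_, ?_, ?_, ?_, ?_, ?_, ?_⟩
  · intro a ha
    rcases mem_union.mp ha with ha | ha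
    · exact mem_union_left _ (h₁.mem1 a ha)
    · exact mem_union_right _ (h₂.mem1 a ha)
  · intro a ha
    rcases mem_union.mp ha with ha | ha
    · exact mem_union_left _ (h₁.mem2 a ha)
    · exact mem_union_right _ (h₂.mem2 a ha)
  · intro a ha
    rcases mem_union.mp ha with ha | ha
    · exact h₁.sgn a ha
    · exact h₂.sgn a ha
  · intro a ha
    rcases mem_union.mp ha with ha | ha
    · exact h₁.ne a ha
    · exact h₂.ne a ha
  · intro a ha
    rcases mem_union.mp ha with ha | ha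
    · exact h₁.cap a ha
    · exact h₂.cap a ha
  · intro u v w
    rw [filter_union]
    exact (card_union_le _ _).trans (Nat.add_le_add (h₁.cross u v w) (h₂.cross u v w))
  · intro a ha b hb hab
    rcases mem_union.mp ha with ha | ha <;> rcases mem_union.mp hb with hb | hb
    · exact h₁.inj a ha b hb hab
    · exact absurd hab (hne _ (h₁.mem1 a ha) _ (h₂.mem1 b hb))
    · exact absurd hab.symm (hne _ (h₁.mem1 b hb) _ (h₂.mem1 a ha))
    · exact h₂.inj a ha b hb hab
  · intro a ha b hb hab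
    rcases mem_union.mp ha with ha | ha <;> rcases mem_union.mp hb with hb | hb
    · exact h₁.nd a ha b hb hab
    · refine max_ne_zero (mul_ne_zero (hσ _ (h₁.sgn a ha)) ?_)
        (mul_ne_zero (hσ _ (h₁.sgn a ha)) ?_)
      · exact hP _ (hS₁ (h₁.mem1 a ha)) _ (hS₁ (h₁.mem2 a ha)) _ (hS₂ (h₂.mem1 b hb))
          (h₁.ne a ha) (hne _ (h₁.mem1 a ha) _ (h₂.mem1 b hb))
          (hne _ (h₁.mem2 a ha) _ (h₂.mem1 b hb))
      · exact hP _ (hS₁ (h₁.mem1 a ha)) _ (hS₁ (h₁.mem2 a ha)) _ (hS₂ (h₂.mem2 b hb))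
          (h₁.ne a ha) (hne _ (h₁.mem1 a ha) _ (h₂.mem2 b hb))
          (hne _ (h₁.mem2 a ha) _ (h₂.mem2 b hb))
    · refine max_ne_zero (mul_ne_zero (hσ _ (h₂.sgn a ha)) ?_)
        (mul_ne_zero (hσ _ (h₂.sgn a ha)) ?_)
      · exact hP _ (hS₂ (h₂.mem1 a ha)) _ (hS₂ (h₂.mem2 a ha)) _ (hS₁ (h₁.mem1 b hb))
          (h₂.ne a ha) (hne _ (h₁.mem1 b hb) _ (h₂.mem1 a ha)).symm
          (hne _ (h₁.mem1 b hb) _ (h₂.mem2 a ha)).symm
      · exact hP _ (hS₂ (h₂.mem1 a ha)) _ (hS₂ (h₂.mem2 a ha)) _ (hS₁ (h₁.mem2 b hb))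
          (h₂.ne a ha) (hne _ (h₁.mem2 b hb) _ (h₂.mem1 a ha)).symm
          (hne _ (h₁.mem2 b hb) _ (h₂.mem2 a ha)).symm
    · exact h₂.nd a ha b hb hab

/-- the points leaving the inner sides at the vertex `x (j+1)` -/
noncomputable def D (P : Finset E) (σ : ℝ) (x : ℕ → E) (j : ℕ) : Finset E :=
  P.filter (fun q => 0 < σ * det (x j) (x (j + 1)) q ∧ σ * det (x (j + 1)) (x (j + 2)) q ≤ 0)

lemma sgn_ne {s : ℝ} (h : s = 1 ∨ s = -1) : s ≠ 0 := by
  rcases h with rfl | rfl <;> norm_num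

lemma window_card {P S : Finset E} (hP : GP P) (hSP : S ⊆ P) {t σ : ℝ} (hσ : σ = 1 ∨ σ = -1)
    {L : ℕ} {x : ℕ → E} (hx : Chain S t σ L x) {k n : ℕ} (hk : 3 ≤ k)
    (hlight : ∀ T ⊆ P, n ≤ T.card → (HV T).card < k) {i : ℕ} (hi : i + (k - 1) ≤ L) :
    (P.filter (fun q => ∀ j, i ≤ j → j < i + (k - 1) →
      0 ≤ σ * det (x j) (x (j + 1)) q)).card < n := by
  by_contra hcon
  push Not at hcon
  set T := P.filter (fun q => ∀ j, i ≤ j → j < i + (k - 1) →
      0 ≤ σ * det (x j) (x (j + 1)) q) with hT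
  have h1 := hlight T (filter_subset _ _) hcon
  have hTP : GP T := hP.mono (filter_subset _ _)
  have hmemT : ∀ m, i ≤ m → m ≤ i + (k - 1) → x m ∈ T := by
    intro m hm1 hm2
    rw [hT, mem_filter]
    refine ⟨hSP (hx.mem m (by omega)), ?_⟩
    intro j hj1 hj2
    by_cases e1 : m = j
    · rw [e1, det_left, mul_zero]
    · by_cases e2 : m = j + 1
      · rw [e2, det_right, mul_zero]
      · exact (hx.inner (by omega) (by omega) e1 e2).le
  have hne : ∀ m, i ≤ m → m < i + (k - 1) → x m ≠ x (m + 1) := by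
    intro m hm1 hm2 h
    have := hx.inj (by omega) (by omega) h
    omega
  have hHV : (Icc i (i + (k - 1))).image x ⊆ HV T := by
    intro z hz
    obtain ⟨m, hm, rfl⟩ := mem_image.mp hz
    rw [mem_Icc] at hm
    by_cases hm' : m < i + (k - 1)
    · exact (hv_of_edge hTP (hmemT m hm.1 hm.2) (hmemT (m + 1) (by omega) (by omega))
        (hne m hm.1 hm') (sgn_ne hσ) (fun z hz => (mem_filter.mp hz).2 m hm.1 hm')).1
    · obtain ⟨m', rfl⟩ : ∃ m', m = m' + 1 := ⟨m - 1, by omega⟩
      exact (hv_of_edge hTP (hmemT m' (by omega) (by omega)) (hmemT (m' + 1) (by omega) (by omega))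
        (hne m' (by omega) (by omega)) (sgn_ne hσ)
        (fun z hz => (mem_filter.mp hz).2 m' (by omega) (by omega))).2
  have hcard : ((Icc i (i + (k - 1))).image x).card = k := by
    rw [card_image_of_injOn, Nat.card_Icc]
    · omega
    · intro a ha b hb hab
      simp only [coe_Icc, Set.mem_Icc] at ha hb
      exact hx.inj (by omega) (by omega) hab
  have := card_le_card hHV
  omega

lemma cap_bound {P S : Finset E} (hP : GP P) (hSP : S ⊆ P) {t σ : ℝ} (hσ : σ = 1 ∨ σ = -1)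
    {L : ℕ} {x : ℕ → E} (hx : Chain S t σ L x) {k n : ℕ} (hk : 3 ≤ k)
    (hlight : ∀ T ⊆ P, n ≤ T.card → (HV T).card < k) {i : ℕ} (hi : i + (k - 1) ≤ L) {d : ℕ}
    (hd : ∀ j ∈ Ico i (i + (k - 2)), (D P σ x j).card ≤ d) :
    (P.filter (fun q => 0 < σ * det (x i) (x (i + 1)) q)).card ≤ n + (k - 2) * d := by
  have hw := window_card hP hSP hσ hx hk hlight hi
  set T := P.filter (fun q => ∀ j, i ≤ j → j < i + (k - 1) →
      0 ≤ σ * det (x j) (x (j + 1)) q) with hT
  have hsub : P.filter (fun q => 0 < σ * det (x i) (x (i + 1)) q)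
      ⊆ T ∪ (Ico i (i + (k - 2))).biUnion (D P σ x) := by
    intro q hq
    rw [mem_filter] at hq
    by_cases hqT : q ∈ T
    · exact mem_union_left _ hqT
    apply mem_union_right
    rw [hT, mem_filter] at hqT
    push Not at hqT
    obtain ⟨j0, hj1, hj2, hj3⟩ := hqT hq.1
    -- the first index with value `≤ 0`
    have hex : ∃ j, i ≤ j ∧ j < i + (k - 1) ∧ σ * det (x j) (x (j + 1)) q ≤ 0 :=
      ⟨j0, hj1, hj2, hj3.le⟩
    obtain ⟨hf1, hf2, hf3⟩ := Nat.find_spec hex
    have hfm : ∀ m < Nat.find hex,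
        ¬(i ≤ m ∧ m < i + (k - 1) ∧ σ * det (x m) (x (m + 1)) q ≤ 0) :=
      fun m hm => Nat.find_min hex hm
    set j := Nat.find hex with hj
    have hji : j ≠ i := by
      intro h
      rw [h] at hf3
      linarith [hq.2]
    obtain ⟨j', rfl'⟩ : ∃ j', j = j' + 1 := ⟨j - 1, by omega⟩
    rw [rfl'] at hf1 hf2 hf3 hfm hji
    rw [mem_biUnion]
    refine ⟨j', by rw [mem_Ico]; omega, ?_⟩
    unfold D
    rw [mem_filter]
    refine ⟨hq.1, ?_, hf3⟩
    by_contra hcon
    push Not at hcon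
    exact hfm j' (by omega) ⟨by omega, by omega, hcon⟩
  have h1 := card_le_card hsub
  have h2 := card_union_le T ((Ico i (i + (k - 2))).biUnion (D P σ x))
  have h3 : ((Ico i (i + (k - 2))).biUnion (D P σ x)).card ≤ (k - 2) * d := by
    refine (card_biUnion_le).trans ?_
    refine (sum_le_card_nsmul _ _ d hd).trans ?_
    rw [Nat.card_Ico, smul_eq_mul]
    have : i + (k - 2) - i = k - 2 := by omega
    rw [this]
  omega

/-- The good edges of a chain. -/
lemma chain_good {P S : Finset E} (hP : GP P) (hSP : S ⊆ P) {t σ : ℝ} (hσ : σ = 1 ∨ σ = -1)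
    {L : ℕ} {x : ℕ → E} (hx : Chain S t σ L x) {k n : ℕ} (hk : 3 ≤ k)
    (hlight : ∀ T ⊆ P, n ≤ T.card → (HV T).card < k) {R d : ℕ} (hRd : P.card < R * (d + 1)) :
    ∃ G : Finset (E × E × ℝ), Good P (n + (k - 2) * d) ((range (L + 1)).image x) 1 G ∧
      L + 1 ≤ G.card + ((k - 1) + R * (k - 2)) := by
  -- heavy vertices
  set H := (range (L - 1)).filter (fun j => d < (D P σ x j).card) with hH
  have hHR : H.card ≤ R := by
    have hdisj : ∀ a ∈ H, ∀ b ∈ H, a ≠ b → Disjoint (D P σ x a) (D P σ x b) := by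
      have aux : ∀ a ∈ H, ∀ b ∈ H, a < b → Disjoint (D P σ x a) (D P σ x b) := by
        intro a ha b hb hab
        rw [disjoint_left]
        intro q hqa hqb
        unfold D at hqa hqb
        rw [mem_filter] at hqa hqb
        rw [hH, mem_filter, mem_range] at hb
        exact hx.leave_unique q hab (by omega) hqa.2.2 hqb.2.1 hqb.2.2
      intro a ha b hb hab
      rcases lt_or_gt_of_ne hab with h | h
      · exact aux a ha b hb h
      · exact (aux b hb a ha h).symm
    have h1 : (H.biUnion (D P σ x)).card = ∑ j ∈ H, (D P σ x j).card := card_biUnion hdisj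
    have h2 : (H.biUnion (D P σ x)).card ≤ P.card := by
      apply card_le_card
      intro q hq
      obtain ⟨j, -, hj⟩ := mem_biUnion.mp hq
      exact (mem_filter.mp hj).1
    have h3 : H.card * (d + 1) ≤ ∑ j ∈ H, (D P σ x j).card := by
      rw [← smul_eq_mul]
      refine card_nsmul_le_sum _ _ _ ?_
      intro j hj
      rw [hH, mem_filter] at hj
      exact hj.2
    have h4 : H.card * (d + 1) < R * (d + 1) := by omega
    exact (Nat.lt_of_mul_lt_mul_right h4).le
  set I := (range (L - (k - 2))).filter (fun i => ∀ j ∈ Ico i (i + (k - 2)), j ∉ H) with hI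
  have hImem : ∀ i, i ∈ I ↔ i ∈ range (L - (k - 2)) ∧ ∀ j ∈ Ico i (i + (k - 2)), j ∉ H :=
    fun i => by simp only [hI, Finset.mem_filter]
  have hIc : L - (k - 2) ≤ I.card + R * (k - 2) := by
    have hsub : range (L - (k - 2)) ⊆
        I ∪ H.biUnion (fun j => (range (k - 2)).image (fun e => j - e)) := by
      intro i hi
      by_cases hiI : i ∈ I
      · exact mem_union_left _ hiI
      · apply mem_union_right
        rw [hImem] at hiI
        push Not at hiI
        obtain ⟨j, hj, hjH⟩ := hiI hi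
        rw [mem_Ico] at hj
        rw [mem_biUnion]
        refine ⟨j, hjH, ?_⟩
        rw [mem_image]
        exact ⟨j - i, by rw [mem_range]; omega, by omega⟩
    have h1 := card_le_card hsub
    rw [card_range] at h1
    have h2 := card_union_le I (H.biUnion (fun j => (range (k - 2)).image (fun e => j - e)))
    have h3 : (H.biUnion (fun j => (range (k - 2)).image (fun e => j - e))).card
        ≤ R * (k - 2) := by
      refine (card_biUnion_le_card_mul _ _ (k - 2) ?_).trans (Nat.mul_le_mul_right _ hHR)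
      intro j _
      exact card_image_le.trans (by rw [card_range])
    omega
  have hIlt : ∀ i ∈ I, i + (k - 1) ≤ L := by
    intro i hi
    rw [hImem, mem_range] at hi
    omega
  set f : ℕ → E × E × ℝ := fun i => (x i, x (i + 1), σ) with hf
  have hfinj : Set.InjOn f I := by
    intro a ha b hb hab
    have h1 := hIlt a ha
    have h2 := hIlt b hb
    simp only [hf, Prod.mk.injEq] at hab
    exact hx.inj (by omega) (by omega) hab.1
  refine ⟨I.image f, ⟨?_, ?_, ?_, ?_, ?_, ?_, ?_, ?_⟩, ?_⟩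
  · intro a ha
    obtain ⟨i, hi, rfl⟩ := mem_image.mp ha
    have := hIlt i hi
    exact mem_image.mpr ⟨i, by rw [mem_range]; omega, rfl⟩
  · intro a ha
    obtain ⟨i, hi, rfl⟩ := mem_image.mp ha
    have := hIlt i hi
    exact mem_image.mpr ⟨i + 1, by rw [mem_range]; omega, rfl⟩
  · intro a ha
    obtain ⟨i, hi, rfl⟩ := mem_image.mp ha
    exact hσ
  · intro a ha
    obtain ⟨i, hi, rfl⟩ := mem_image.mp ha
    have := hIlt i hi
    intro h
    have := hx.inj (i := i) (j := i + 1) (by omega) (by omega) h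
    omega
  · intro a ha
    obtain ⟨i, hi, rfl⟩ := mem_image.mp ha
    have h1 := hIlt i hi
    refine cap_bound hP hSP hσ hx hk hlight h1 ?_
    intro j hj
    rw [hImem] at hi
    have h2 := hi.2 j hj
    rw [mem_Ico] at hj
    rw [hH, mem_filter, mem_range] at h2
    push Not at h2
    exact h2 (by omega)
  · intro u v w
    rw [card_le_one]
    intro a ha b hb
    rw [mem_filter] at ha hb
    obtain ⟨i, hi, rfl⟩ := mem_image.mp ha.1
    obtain ⟨j, hj, rfl⟩ := mem_image.mp hb.1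
    have h1 := hIlt i hi
    have h2 := hIlt j hj
    rcases lt_trichotomy i j with h | h | h
    · exact (hx.cross_unique u v w h (by omega) ha.2.1 ha.2.2 hb.2.1 hb.2.2).elim
    · rw [h]
    · exact (hx.cross_unique u v w h (by omega) hb.2.1 hb.2.2 ha.2.1 ha.2.2).elim
  · intro a ha b hb hab
    obtain ⟨i, hi, rfl⟩ := mem_image.mp ha
    obtain ⟨j, hj, rfl⟩ := mem_image.mp hb
    have h1 := hIlt i hi
    have h2 := hIlt j hj
    have := hx.inj (by omega) (by omega) hab
    rw [this]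
  · intro a ha b hb hab
    obtain ⟨i, hi, rfl⟩ := mem_image.mp ha
    obtain ⟨j, hj, rfl⟩ := mem_image.mp hb
    have h1 := hIlt i hi
    have h2 := hIlt j hj
    have hij : i ≠ j := by
      rintro rfl
      exact hab rfl
    by_cases h3 : j = i + 1
    · have := hx.inner (i := i) (m := j + 1) (by omega) (by omega) (by omega) (by omega)
      exact (lt_of_lt_of_le this (le_max_right _ _)).ne'
    · have := hx.inner (i := i) (m := j) (by omega) (by omega) (Ne.symm hij) h3
      exact (lt_of_lt_of_le this (le_max_left _ _)).ne'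
  · rw [card_image_of_injOn hfinj]
    omega

/-- Decomposition. -/
theorem decomp {P : Finset E} (hP : GP P) {t : ℝ}
    (hinj : ∀ p ∈ P, ∀ q ∈ P, ψ t p = ψ t q → p = q) {k n : ℕ} (hk : 3 ≤ k)
    (hlight : ∀ T ⊆ P, n ≤ T.card → (HV T).card < k) {R d : ℕ} (hRd : P.card < R * (d + 1))
    (l : ℕ) : ∀ (N : ℕ) (S : Finset E), S.card = N → S ⊆ P →
    ∃ (c : ℕ) (G : Finset (E × E × ℝ)), Good P (n + (k - 2) * d) S c G ∧
      c * (l + 2) ≤ S.card ∧ S.card ≤ G.card + 2 ^ (l * l) + c * ((k - 1) + R * (k - 2)) := by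
  intro N
  induction N using Nat.strong_induction_on with
  | _ N ih =>
    intro S hSN hSP
    by_cases hbig : 2 ^ (l * l) < S.card
    · obtain ⟨σ, hσ, x, hx⟩ := exists_long (hP.mono hSP) t
        (fun p hp q hq => hinj p (hSP hp) q (hSP hq)) l hbig
      obtain ⟨G₁, hG₁, hG₁c⟩ := chain_good hP hSP hσ hx hk hlight hRd
      set C := (range (l + 1 + 1)).image x with hC
      have hCS : C ⊆ S := by
        intro z hz
        obtain ⟨i, hi, rfl⟩ := mem_image.mp hz
        rw [mem_range] at hi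
        exact hx.mem i (by omega)
      have hCc : C.card = l + 2 := by
        rw [hC, card_image_of_injOn, card_range]
        intro a ha b hb hab
        simp only [coe_range, Set.mem_Iio] at ha hb
        exact hx.inj (by omega) (by omega) hab
      have hsd : (S \ C).card = S.card - C.card := card_sdiff_of_subset hCS
      have hle := card_le_card hCS
      obtain ⟨c, G, hG, hc1, hc2⟩ := ih (S \ C).card (by omega) (S \ C) rfl
        (sdiff_subset.trans hSP)
      have hdis : Disjoint C (S \ C) := disjoint_sdiff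
      have hU := hG₁.union hP hG hdis (hCS.trans hSP) (sdiff_subset.trans hSP)
      rw [union_sdiff_of_subset hCS] at hU
      have hGd : Disjoint G₁ G := by
        rw [disjoint_left]
        intro a ha1 ha2
        exact (disjoint_left.mp hdis (hG₁.mem1 a ha1)) (hG.mem1 a ha2)
      refine ⟨1 + c, G₁ ∪ G, hU, ?_, ?_⟩
      · have : (1 + c) * (l + 2) = c * (l + 2) + (l + 2) := by ring
        omega
      · rw [card_union_of_disjoint hGd]
        have : (1 + c) * ((k - 1) + R * (k - 2))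
          = c * ((k - 1) + R * (k - 2)) + ((k - 1) + R * (k - 2)) := by ring
        omega
    · exact ⟨0, ∅, Good.empty _ _ _, by simp, by simp; omega⟩

end Pool.Agent.Helper456.ES
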