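import Pool.Agent.Helper456.ES.Dec
import Pool.Agent.Helper456.ES.Circ

/-!
# The heavy subset with many hull vertices (MP_ec6744_co)
-/

namespace Pool.Agent.Helper456.ES

open Real Finset
open scoped Classical

/-- coordinates -/
noncomputable def pt (z : E) : ℝ × ℝ := (z 0, z 1)

lemma exists_angle (a : E × E × ℝ) (hne : a.1 ≠ a.2.1) (hσ : a.2.2 = 1 ∨ a.2.2 = -1) :
    ∃ φ r : ℝ, 0 < r ∧ ∀ z : E, r * (ht (pt z) φ - ht (pt a.1) φ) = a.2.2 * det a.1 a.2.1 z := by
  set w : ℂ := ⟨-(a.2.2 * (a.2.1 1 - a.1 1)), a.2.2 * (a.2.1 0 - a.1 0)⟩ with hw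
  have hw0 : w ≠ 0 := by
    intro h
    rw [Complex.ext_iff] at h
    simp only [hw, Complex.zero_re, Complex.zero_im] at h
    have h1 : a.2.1 1 - a.1 1 = 0 := by
      have := neg_eq_zero.mp h.1
      exact (mul_eq_zero.mp this).resolve_left (sgn_ne hσ)
    have h2 : a.2.1 0 - a.1 0 = 0 := (mul_eq_zero.mp h.2).resolve_left (sgn_ne hσ)
    apply hne
    ext i
    fin_cases i
    · show a.1 0 = a.2.1 0
      linarith
    · show a.1 1 = a.2.1 1
      linarith
  refine ⟨Complex.arg w, ‖w‖, norm_pos_iff.mpr hw0, ?_⟩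
  intro z
  have h1 := Complex.norm_mul_cos_arg w
  have h2 := Complex.norm_mul_sin_arg w
  have e1 : w.re = -(a.2.2 * (a.2.1 1 - a.1 1)) := rfl
  have e2 : w.im = a.2.2 * (a.2.1 0 - a.1 0) := rfl
  rw [e1] at h1
  rw [e2] at h2
  unfold ht pt det
  linear_combination (z 0 - a.1 0) * h1 + (z 1 - a.1 1) * h2

/-- Main geometric theorem: existence of a heavy subset with at least `k` hull vertices. -/
theorem heavy {k n : ℕ} (hk : 3 ≤ k) {P : Finset E} (hP : GP P) {R d l : ℕ}
    (hRd : P.card < R * (d + 1))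
    (h1 : ∀ c, c * (l + 2) ≤ P.card →
      (k / 2 + 1) * (n + (k - 2) * d + c + 1) + 2 ^ (l * l) + c * ((k - 1) + R * (k - 2))
        ≤ P.card)
    (h2 : n + (k / 2) * (n + (k - 2) * d) ≤ P.card) :
    ∃ T ⊆ P, n ≤ T.card ∧ k ≤ (HV T).card := by
  by_contra hcon
  push Not at hcon
  obtain ⟨t, ht'⟩ := exists_psi P
  obtain ⟨c, G, hG, hc1, hc2⟩ := decomp hP ht' hk hcon hRd l P.card P rfl (Finset.Subset.refl _)
  have hnum := h1 c hc1
  set β := n + (k - 2) * d with hβ
  -- the angles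
  have hang : ∀ a : {a // a ∈ G}, ∃ φ r : ℝ, 0 < r ∧
      ∀ z : E, r * (ht (pt z) φ - ht (pt a.1.1) φ) = a.1.2.2 * det a.1.1 a.1.2.1 z :=
    fun a => exists_angle a.1 (hG.ne _ a.2) (hG.sgn _ a.2)
  choose φ r hr hφ using hang
  set P' : {a // a ∈ G} → ℝ × ℝ := fun a => pt a.1.1 with hP'
  set Q' : {a // a ∈ G} → ℝ × ℝ := fun a => pt a.1.2.1 with hQ'
  have hPQ : ∀ a, ht (P' a) (φ a) = ht (Q' a) (φ a) := by
    intro a
    have := hφ a a.1.2.1
    rw [det_right, mul_zero] at this
    have h := (mul_eq_zero.mp this).resolve_left (hr a).ne'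
    show ht (pt a.1.1) (φ a) = ht (pt a.1.2.1) (φ a)
    linarith
  have hown : ∀ a, S P' Q' a (φ a) = ht (pt a.1.1) (φ a) := by
    intro a
    rw [← own hPQ (Or.inl rfl : IsEnd P' Q' a (P' a))]
  -- translation between heights and determinants
  have hpos : ∀ (a : {a // a ∈ G}) (z : E), ht (pt a.1.1) (φ a) < ht (pt z) (φ a) ↔
      0 < a.1.2.2 * det a.1.1 a.1.2.1 z := by
    intro a z
    rw [← hφ a z]
    constructor
    · intro h
      exact mul_pos (hr a) (by linarith)
    · intro h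
      have := (pos_iff_pos_of_mul_pos h).mp (hr a)
      linarith
  have hneg : ∀ (a : {a // a ∈ G}) (z : E), ht (pt z) (φ a) < ht (pt a.1.1) (φ a) →
      a.1.2.2 * det a.1.1 a.1.2.1 z < 0 := by
    intro a z h
    rw [← hφ a z]
    exact mul_neg_of_pos_of_neg (hr a) (by linarith)
  have hnd : ∀ a b, a ≠ b → S P' Q' b (φ a) ≠ S P' Q' a (φ a) := by
    intro a b hab heq
    rw [hown] at heq
    have hne : a.1 ≠ b.1 := fun h => hab (Subtype.ext h)
    apply hG.nd a.1 a.2 b.1 b.2 hne
    rw [← hφ a b.1.1, ← hφ a b.1.2.1]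
    have e1 : ht (pt b.1.1) (φ a) ≤ ht (pt a.1.1) (φ a) := by
      rw [← heq]; exact le_max_left _ _
    have e2 : ht (pt b.1.2.1) (φ a) ≤ ht (pt a.1.1) (φ a) := by
      rw [← heq]; exact le_max_right _ _
    have n1 := mul_nonpos_of_nonneg_of_nonpos (hr a).le (sub_nonpos.mpr e1)
    have n2 := mul_nonpos_of_nonneg_of_nonpos (hr a).le (sub_nonpos.mpr e2)
    rcases max_choice (ht (pt b.1.1) (φ a)) (ht (pt b.1.2.1) (φ a)) with h | h
    · have e3 : ht (pt b.1.1) (φ a) = ht (pt a.1.1) (φ a) := by rw [← heq]; exact h.symm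
      rw [e3, sub_self, mul_zero]
      exact max_eq_left n2
    · have e3 : ht (pt b.1.2.1) (φ a) = ht (pt a.1.1) (φ a) := by rw [← heq]; exact h.symm
      rw [e3, sub_self, mul_zero]
      exact max_eq_right n1
  -- caps
  have hcap : ∀ a, (univ.filter (fun b => S P' Q' a (φ a) < S P' Q' b (φ a))).card + 1
      ≤ β + c + 1 := by
    intro a
    have hsub : univ.filter (fun b => S P' Q' a (φ a) < S P' Q' b (φ a)) ⊆
        univ.filter (fun b : {a // a ∈ G} => 0 < a.1.2.2 * det a.1.1 a.1.2.1 b.1.1) ∪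
        univ.filter (fun b : {a // a ∈ G} =>
          cos (φ a) * b.1.1 0 + sin (φ a) * b.1.1 1 ≤ ht (pt a.1.1) (φ a) ∧
          ht (pt a.1.1) (φ a) < cos (φ a) * b.1.2.1 0 + sin (φ a) * b.1.2.1 1) := by
      intro b hb
      rw [mem_filter, hown] at hb
      have hb2 := hb.2
      rw [mem_union, mem_filter, mem_filter]
      by_cases hc : ht (pt a.1.1) (φ a) < ht (pt b.1.1) (φ a)
      · exact Or.inl ⟨mem_univ _, (hpos a _).mp hc⟩
      · right
        refine ⟨mem_univ _, ?_, ?_⟩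
        · push Not at hc
          unfold ht pt at hc ⊢
          simp only at hc ⊢
          linarith
        · rcases lt_max_iff.mp hb2 with h | h
          · exact absurd h hc
          · change ht (pt a.1.1) (φ a) < ht (pt b.1.2.1) (φ a) at h
            have e : ht (pt b.1.2.1) (φ a)
                = cos (φ a) * b.1.2.1 0 + sin (φ a) * b.1.2.1 1 := by
              unfold ht pt; simp only; ring
            rwa [e] at h
    have c1 : (univ.filter (fun b : {a // a ∈ G} =>
        0 < a.1.2.2 * det a.1.1 a.1.2.1 b.1.1)).card ≤ β := by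
      refine le_trans ?_ (hG.cap a.1 a.2)
      refine card_le_card_of_injOn (fun b => b.1.1) ?_ ?_
      · intro b hb
        have hb' := (mem_filter.mp hb).2
        exact mem_filter.mpr ⟨hG.mem1 _ b.2, hb'⟩
      · intro b _ b' _ h
        exact Subtype.ext (hG.inj _ b.2 _ b'.2 h)
    have c2 : (univ.filter (fun b : {a // a ∈ G} =>
          cos (φ a) * b.1.1 0 + sin (φ a) * b.1.1 1 ≤ ht (pt a.1.1) (φ a) ∧
          ht (pt a.1.1) (φ a) < cos (φ a) * b.1.2.1 0 + sin (φ a) * b.1.2.1 1)).card ≤ c := by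
      refine le_trans ?_ (hG.cross (cos (φ a)) (sin (φ a)) (ht (pt a.1.1) (φ a)))
      refine card_le_card_of_injOn (fun b => b.1) ?_ ?_
      · intro b hb
        have hb' := (mem_filter.mp hb).2
        exact mem_filter.mpr ⟨b.2, hb'⟩
      · intro b _ b' _ h
        exact Subtype.ext h
    have := (card_le_card hsub).trans ((card_union_le _ _).trans (Nat.add_le_add c1 c2))
    omega
  have hs : k / 2 - 1 + 2 = k / 2 + 1 := by omega
  obtain ⟨W, hW, hWp⟩ := core hPQ hnd (β + c + 1) (k / 2 - 1) hcap (by omega) (by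
    rw [hs, Fintype.card_coe]
    omega)
  rw [hs] at hW
  have hWne : W.Nonempty := by rw [← card_pos]; omega
  obtain ⟨s, hsW⟩ := hWne
  set W' := W.erase s with hW'
  have hW'c : W'.card = k / 2 := by
    rw [hW', card_erase_of_mem hsW]; omega
  have hW'W : ∀ a ∈ W', a ∈ W := fun a ha => mem_of_mem_erase ha
  set T := P.filter (fun q => ∀ a ∈ W', a.1.2.2 * det a.1.1 a.1.2.1 q ≤ 0) with hT
  have hTmem : ∀ q, q ∈ T ↔ q ∈ P ∧ ∀ a ∈ W', a.1.2.2 * det a.1.1 a.1.2.1 q ≤ 0 := by
    intro q; simp only [hT, mem_filter]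
  have hTP : T ⊆ P := filter_subset _ _
  have hTcard : n ≤ T.card := by
    have hsub : P ⊆ T ∪ W'.biUnion (fun a => P.filter (fun q => 0 < a.1.2.2 * det a.1.1 a.1.2.1 q)) := by
      intro q hq
      by_cases hqT : q ∈ T
      · exact mem_union_left _ hqT
      · apply mem_union_right
        rw [hTmem] at hqT
        push Not at hqT
        obtain ⟨a, ha, hlt⟩ := hqT hq
        exact mem_biUnion.mpr ⟨a, ha, mem_filter.mpr ⟨hq, hlt⟩⟩
    have e1 := card_le_card hsub
    have e2 := card_union_le T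
      (W'.biUnion (fun a => P.filter (fun q => 0 < a.1.2.2 * det a.1.1 a.1.2.1 q)))
    have e3 : (W'.biUnion (fun a => P.filter (fun q => 0 < a.1.2.2 * det a.1.1 a.1.2.1 q))).card
        ≤ W'.card * β := card_biUnion_le_card_mul _ _ _ (fun a _ => hG.cap a.1 a.2)
    rw [hW'c] at e3
    omega
  have hlt : ∀ a ∈ W, ∀ b ∈ W, a ≠ b → ht (pt b.1.1) (φ a) < ht (pt a.1.1) (φ a) ∧
      ht (pt b.1.2.1) (φ a) < ht (pt a.1.1) (φ a) := by
    intro a ha b hb hab
    have h := hWp a ha b hb hab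
    rw [hown a] at h
    exact ⟨lt_of_le_of_lt (le_max_left _ _) h, lt_of_le_of_lt (le_max_right _ _) h⟩
  have hend1 : ∀ b ∈ W, b.1.1 ∈ T := by
    intro b hb
    rw [hTmem]
    refine ⟨hG.mem1 _ b.2, ?_⟩
    intro a ha
    by_cases hab : a = b
    · subst hab
      rw [det_left, mul_zero]
    · exact (hneg a _ (hlt a (hW'W a ha) b hb hab).1).le
  have hend2 : ∀ b ∈ W, b.1.2.1 ∈ T := by
    intro b hb
    rw [hTmem]
    refine ⟨hG.mem2 _ b.2, ?_⟩
    intro a ha
    by_cases hab : a = b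
    · subst hab
      rw [det_right, mul_zero]
    · exact (hneg a _ (hlt a (hW'W a ha) b hb hab).2).le
  have hTGP := hP.mono hTP
  have hhv : ∀ a ∈ W', a.1.1 ∈ HV T ∧ a.1.2.1 ∈ HV T := by
    intro a ha
    refine hv_of_edge hTGP (hend1 a (hW'W a ha)) (hend2 a (hW'W a ha)) (hG.ne _ a.2)
      (τ := -a.1.2.2) (neg_ne_zero.mpr (sgn_ne (hG.sgn _ a.2))) ?_
    intro z hz
    have := ((hTmem z).mp hz).2 a ha
    linarith
  obtain ⟨v, hv, hvmax⟩ := exists_hv_max hTGP ⟨_, hend1 s hsW⟩ (cos (φ s)) (sin (φ s))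
    (by rw [cos_sq_add_sin_sq])
  have hvs : ht (pt s.1.1) (φ s) ≤ ht (pt v) (φ s) := by
    have := hvmax _ (hend1 s hsW)
    unfold ht pt
    simp only
    linarith
  -- the set of ends
  set Ends := W'.biUnion (fun a => ({a.1.1, a.1.2.1} : Finset E)) with hEnds
  have hEndsc : Ends.card = k / 2 * 2 := by
    rw [hEnds, card_biUnion]
    · rw [← hW'c, ← smul_eq_mul, ← sum_const]
      exact sum_congr rfl (fun a _ => card_pair (hG.ne _ a.2))
    · intro a ha b hb hab
      rw [mem_coe] at ha hb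
      show Disjoint ({a.1.1, a.1.2.1} : Finset E) {b.1.1, b.1.2.1}
      rw [disjoint_left]
      intro z hza hzb
      have hz := hlt a (hW'W a ha) b (hW'W b hb) hab
      have hza' : ht (pt z) (φ a) = ht (pt a.1.1) (φ a) := by
        rcases mem_insert.mp hza with rfl | h
        · rfl
        · rw [mem_singleton.mp h]
          exact (hPQ a).symm
      rcases mem_insert.mp hzb with h | h
      · rw [h] at hza'
        linarith [hz.1]
      · rw [mem_singleton.mp h] at hza'
        linarith [hz.2]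
  have hvE : v ∉ Ends := by
    intro h
    obtain ⟨a, ha, hva⟩ := mem_biUnion.mp h
    have hsa : s ≠ a := fun e => by
      rw [hW', mem_erase] at ha
      exact ha.1 e.symm
    have hz := hlt s hsW a (hW'W a ha) hsa
    rcases mem_insert.mp hva with h | h
    · rw [h] at hvs
      linarith [hz.1]
    · rw [mem_singleton.mp h] at hvs
      linarith [hz.2]
  have hsubHV : insert v Ends ⊆ HV T := by
    intro z hz
    rcases mem_insert.mp hz with rfl | hz
    · exact hv
    · obtain ⟨a, ha, hza⟩ := mem_biUnion.mp hz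
      rcases mem_insert.mp hza with h | h
      · rw [h]; exact (hhv a ha).1
      · rw [mem_singleton.mp h]; exact (hhv a ha).2
  have hcardHV := card_le_card hsubHV
  rw [card_insert_of_notMem hvE, hEndsc] at hcardHV
  have := hcon T hTP hTcard
  omega

/-- The numerical part. -/
theorem heavy_real {k : ℕ} (hk : 3 ≤ k) {ε : ℝ} (hε : 0 < ε) :
    ∃ n₀ : ℕ, ∀ n ≥ n₀, ∀ P : Finset E, GP P →
      (((k / 2 : ℕ) : ℝ) + 1 + ε) * n ≤ P.card → ∃ T ⊆ P, n ≤ T.card ∧ k ≤ (HV T).card := by
  -- reduce to `ε ≤ 1`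
  set δ := min ε 1 with hδ
  have hδ0 : 0 < δ := lt_min hε one_pos
  have hδ1 : δ ≤ 1 := min_le_right _ _
  set s := k / 2 + 1 with hs
  obtain ⟨m, hm⟩ := exists_nat_ge (4 * ((s : ℝ) + 1) / δ)
  have hm' : 4 * ((s : ℝ) + 1) ≤ m * δ := by
    rw [div_le_iff₀ hδ0] at hm
    exact hm
  have hm0 : (0 : ℝ) < m := by
    by_contra h
    push Not at h
    have : (m : ℝ) * δ ≤ 0 := mul_nonpos_of_nonpos_of_nonneg h hδ0.le
    have h3 : (0 : ℝ) ≤ s := Nat.cast_nonneg s
    linarith
  have hmN : 0 < m := by exact_mod_cast hm0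
  set R := s * (k - 2) * m with hR
  set K := (k - 1) + R * (k - 2) with hK
  set l := (s + K) * m with hl
  set M := 2 ^ (l * l) with hM
  obtain ⟨n₀, hn₀⟩ := exists_nat_ge (2 * ((s : ℝ) + M) / δ)
  refine ⟨n₀, ?_⟩
  intro n hn P hP hcard
  have hn1 : 2 * ((s : ℝ) + M) ≤ n * δ := by
    rw [div_le_iff₀ hδ0] at hn₀
    have h : (n₀ : ℝ) ≤ n := by exact_mod_cast hn
    exact hn₀.trans (mul_le_mul_of_nonneg_right h hδ0.le)
  set N := P.card with hN
  -- the key numerical inequality
  have hstar : m * (s * n + s + M) + 2 * N ≤ m * N := by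
    have hsr : ((k / 2 : ℕ) : ℝ) + 1 = s := by rw [hs]; push_cast; ring
    rw [hsr] at hcard
    have hnn : (0 : ℝ) ≤ n := Nat.cast_nonneg n
    have hNr : ((s : ℝ) + δ) * n ≤ N := by
      refine le_trans ?_ hcard
      gcongr
      exact min_le_left _ _
    have hs0 : (0 : ℝ) ≤ s := Nat.cast_nonneg s
    have hm2 : (2 : ℝ) ≤ m := by
      have : (m : ℝ) * δ ≤ m := mul_le_of_le_one_right hm0.le hδ1
      linarith
    have hstar' : (m : ℝ) * (s * n + s + M) + 2 * N ≤ m * N := by
      have e1 : ((m : ℝ) - 2) * (((s : ℝ) + δ) * n) ≤ (m - 2) * N :=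
        mul_le_mul_of_nonneg_left hNr (by linarith)
      have e2 : (m : ℝ) * (2 * ((s : ℝ) + M)) ≤ m * (n * δ) :=
        mul_le_mul_of_nonneg_left hn1 hm0.le
      have e3 : (4 * ((s : ℝ) + 1)) * n ≤ (m * δ) * n := mul_le_mul_of_nonneg_right hm' hnn
      have e4 : δ * n ≤ 1 * n := mul_le_mul_of_nonneg_right hδ1 hnn
      nlinarith
    exact_mod_cast hstar'
  have hR0 : 0 < R := by
    rw [hR]
    have : 0 < s * (k - 2) := Nat.mul_pos (by omega) (by omega)
    exact Nat.mul_pos this hmN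
  have hRd : N < R * (N / R + 1) := Nat.lt_mul_div_succ N hR0
  have hdle : R * (N / R) ≤ N := Nat.mul_div_le N R
  refine heavy hk hP (R := R) (d := N / R) (l := l) hRd ?_ ?_
  · intro c hc
    set d := N / R with hd
    have f1 : m * (s * ((k - 2) * d)) ≤ N := by
      refine le_trans (le_of_eq ?_) hdle
      rw [hR]; ring
    have f2 : m * ((s + K) * c) ≤ N := by
      refine le_trans ?_ hc
      rw [hl]
      nlinarith
    have f3 : m * (s * (n + (k - 2) * d + c + 1) + 2 ^ (l * l) + c * K)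
        = m * (s * n + s + M) + m * (s * ((k - 2) * d)) + m * ((s + K) * c) := by
      rw [hM]; ring
    have f4 : m * (s * (n + (k - 2) * d + c + 1) + 2 ^ (l * l) + c * K) ≤ m * N := by
      rw [f3]; omega
    exact Nat.le_of_mul_le_mul_left f4 hmN
  · set d := N / R with hd
    have f1 : m * (s * ((k - 2) * d)) ≤ N := by
      refine le_trans (le_of_eq ?_) hdle
      rw [hR]; ring
    have f2 : m * (n + k / 2 * (n + (k - 2) * d)) ≤ m * N := by
      have g1 : n + k / 2 * (n + (k - 2) * d) ≤ s * n + s * ((k - 2) * d) := by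
        rw [hs]
        have : (k / 2 + 1) * n + (k / 2 + 1) * ((k - 2) * d)
          = n + k / 2 * (n + (k - 2) * d) + (k - 2) * d := by ring
        omega
      have g2 := Nat.mul_le_mul_left m g1
      have g3 : m * (s * n + s * ((k - 2) * d)) = m * (s * n) + m * (s * ((k - 2) * d)) := by ring
      have g4 : m * (s * n + s + M) = m * (s * n) + m * (s + M) := by ring
      have g5 : 0 ≤ m * (s + M) := Nat.zero_le _
      omega
    exact Nat.le_of_mul_le_mul_left f2 hmN

/-- `det a b c = 0` implies collinear. -/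
lemma collinear_of_det {a b c : E} (hab : a ≠ b) (h : det a b c = 0) :
    Collinear ℝ ({a, b, c} : Set E) := by
  rw [collinear_iff_of_mem (p₀ := a) (by simp)]
  refine ⟨b - a, ?_⟩
  have hc : ∃ r : ℝ, c = r • (b - a) +ᵥ a := by
    unfold det at h
    by_cases h0 : b 0 - a 0 = 0
    · have h1 : b 1 - a 1 ≠ 0 := by
        intro h1
        apply hab
        ext i
        fin_cases i
        · show a 0 = b 0
          linarith
        · show a 1 = b 1
          linarith
      refine ⟨(c 1 - a 1) / (b 1 - a 1), ?_⟩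
      rw [h0, zero_mul, zero_sub, neg_eq_zero] at h
      have hc0 : c 0 - a 0 = 0 := (mul_eq_zero.mp h).resolve_left h1
      ext i
      fin_cases i
      · show c 0 = (c 1 - a 1) / (b 1 - a 1) * (b 0 - a 0) + a 0
        rw [h0]; linarith
      · show c 1 = (c 1 - a 1) / (b 1 - a 1) * (b 1 - a 1) + a 1
        rw [div_mul_cancel₀ _ h1]; ring
    · refine ⟨(c 0 - a 0) / (b 0 - a 0), ?_⟩
      ext i
      fin_cases i
      · show c 0 = (c 0 - a 0) / (b 0 - a 0) * (b 0 - a 0) + a 0
        rw [div_mul_cancel₀ _ h0]; ring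
      · show c 1 = (c 0 - a 0) / (b 0 - a 0) * (b 1 - a 1) + a 1
        have : (c 0 - a 0) / (b 0 - a 0) * (b 1 - a 1) = c 1 - a 1 := by
          rw [div_mul_eq_mul_div, div_eq_iff h0]
          linarith
        linarith
  intro p hp
  simp only [Set.mem_insert_iff, Set.mem_singleton_iff] at hp
  rcases hp with rfl | rfl | rfl
  · exact ⟨0, by simp⟩
  · exact ⟨1, by simp⟩
  · exact hc

end Pool.Agent.Helper456.ES
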