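import Pool.Agent.Helper456.ES.Chain

/-!
# Hull vertices, and long cups or caps in large sets (MP_ec6744_co)
-/

namespace Pool.Agent.Helper456.ES

open Real Finset
open scoped Classical

/-- general position -/
def GP (P : Finset E) : Prop :=
  ∀ a ∈ P, ∀ b ∈ P, ∀ c ∈ P, a ≠ b → a ≠ c → b ≠ c → det a b c ≠ 0

lemma GP.mono {P T : Finset E} (h : GP P) (hT : T ⊆ P) : GP T :=
  fun a ha b hb c hc => h a (hT ha) b (hT hb) c (hT hc)

/-- the vertices of the convex hull of `T` -/
noncomputable def HV (T : Finset E) : Finset E :=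
  T.filter (fun p => p ∉ convexHull ℝ ((T : Set E) \ {p}))

lemma mem_HV {T : Finset E} {p : E} :
    p ∈ HV T ↔ p ∈ T ∧ p ∉ convexHull ℝ ((T : Set E) \ {p}) := by
  unfold HV; rw [mem_filter]

lemma HV_mono {T T' : Finset E} (h : T' ⊆ T) {p : E} (hp : p ∈ HV T) (hp' : p ∈ T') :
    p ∈ HV T' := by
  rw [mem_HV] at hp ⊢
  refine ⟨hp', fun hc => hp.2 (convexHull_mono ?_ hc)⟩
  exact Set.sdiff_subset_sdiff_left (by exact_mod_cast h)

lemma convex_half (u v m : ℝ) : Convex ℝ {z : E | u * z 0 + v * z 1 < m} := by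
  rw [convex_iff_forall_pos]
  intro x hx y hy a b ha hb hab
  simp only [Set.mem_ofPred_eq, PiLp.add_apply, PiLp.smul_apply, smul_eq_mul] at *
  have h1 := mul_lt_mul_of_pos_left hx ha
  have h2 := mul_lt_mul_of_pos_left hy hb
  have h3 : a * m + b * m = m := by rw [← add_mul, hab, one_mul]
  nlinarith

lemma convex_half' (u v m : ℝ) (e : E) (he : u * e 0 + v * e 1 ≤ m) :
    Convex ℝ {z : E | u * z 0 + v * z 1 < m ∨ z = e} := by
  rw [convex_iff_forall_pos]
  intro x hx y hy a b ha hb hab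
  have h3 : a * m + b * m = m := by rw [← add_mul, hab, one_mul]
  rcases hx with hx | rfl
  · left
    have hy' : u * y 0 + v * y 1 ≤ m := by
      rcases hy with hy | rfl
      · exact le_of_lt hy
      · exact he
    simp only [PiLp.add_apply, PiLp.smul_apply, smul_eq_mul] at *
    have h1 := mul_lt_mul_of_pos_left hx ha
    have h2 := mul_le_mul_of_nonneg_left hy' hb.le
    nlinarith
  · rcases hy with hy | rfl
    · left
      simp only [PiLp.add_apply, PiLp.smul_apply, smul_eq_mul] at *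
      have h1 := mul_le_mul_of_nonneg_left he ha.le
      have h2 := mul_lt_mul_of_pos_left hy hb
      nlinarith
    · right
      rw [← add_smul, hab, one_smul]

lemma hv_of_convex {T : Finset E} {v : E} (K : Set E) (hK : Convex ℝ K) (hv : v ∈ T)
    (hvK : v ∉ K) (h : ∀ z ∈ T, z ≠ v → z ∈ K) : v ∈ HV T := by
  rw [mem_HV]
  refine ⟨hv, fun hc => hvK ?_⟩
  have : convexHull ℝ ((T : Set E) \ {v}) ⊆ K := by
    refine convexHull_min ?_ hK
    rintro z ⟨hz1, hz2⟩
    exact h z (by exact_mod_cast hz1) (by simpa using hz2)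
  exact this hc

lemma hv_of_edge {T : Finset E} (hT : GP T) {a b : E} (ha : a ∈ T) (hb : b ∈ T) (hab : a ≠ b)
    {τ : ℝ} (hτ : τ ≠ 0) (h : ∀ z ∈ T, 0 ≤ τ * det a b z) : a ∈ HV T ∧ b ∈ HV T := by
  -- `τ * det a b z = m - (u z0 + v z1)`
  have key : ∀ z : E, τ * det a b z
      = (τ * ((b 1 - a 1) * a 0 - (b 0 - a 0) * a 1))
        - ((τ * (b 1 - a 1)) * z 0 + (-(τ * (b 0 - a 0))) * z 1) := by
    intro z; unfold det; ring
  set m := τ * ((b 1 - a 1) * a 0 - (b 0 - a 0) * a 1) with hm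
  set u := τ * (b 1 - a 1) with hu
  set v := -(τ * (b 0 - a 0)) with hv
  have ka := key a
  have kb := key b
  rw [det_left, mul_zero] at ka
  rw [det_right, mul_zero] at kb
  have hpos : ∀ z ∈ T, z ≠ a → z ≠ b → u * z 0 + v * z 1 < m := by
    intro z hz hza hzb
    have h1 := h z hz
    have h2 := hT a ha b hb z hz hab (Ne.symm hza) (Ne.symm hzb)
    have h3 : 0 < τ * det a b z := lt_of_le_of_ne h1 (Ne.symm (mul_ne_zero hτ h2))
    have := key z
    linarith
  constructor
  · refine hv_of_convex {z : E | u * z 0 + v * z 1 < m ∨ z = b} (convex_half' u v m b (by linarith))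
      ha ?_ ?_
    · simp only [Set.mem_ofPred_eq, not_or, not_lt]
      exact ⟨by linarith, hab⟩
    · intro z hz hza
      by_cases hzb : z = b
      · exact Or.inr hzb
      · exact Or.inl (hpos z hz hza hzb)
  · refine hv_of_convex {z : E | u * z 0 + v * z 1 < m ∨ z = a} (convex_half' u v m a (by linarith))
      hb ?_ ?_
    · simp only [Set.mem_ofPred_eq, not_or, not_lt]
      exact ⟨by linarith, hab.symm⟩
    · intro z hz hzb
      by_cases hza : z = a
      · exact Or.inr hza
      · exact Or.inl (hpos z hz hza hzb)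

/-- a hull vertex that is highest in the direction `(u, v)` -/
lemma exists_hv_max {T : Finset E} (hT : GP T) (hne : T.Nonempty) (u v : ℝ)
    (huv : u ^ 2 + v ^ 2 = 1) :
    ∃ p ∈ HV T, ∀ z ∈ T, u * z 0 + v * z 1 ≤ u * p 0 + v * p 1 := by
  obtain ⟨p, hp, hmax⟩ := T.exists_max_image (fun z => u * z 0 + v * z 1) hne
  refine ⟨p, ?_, hmax⟩
  by_cases hex : ∃ p' ∈ T, p' ≠ p ∧ u * p' 0 + v * p' 1 = u * p 0 + v * p 1
  · obtain ⟨p', hp', hne', heq⟩ := hex
    refine hv_of_convex {z : E | u * z 0 + v * z 1 < u * p 0 + v * p 1 ∨ z = p'}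
      (convex_half' u v _ p' heq.le) hp ?_ ?_
    · simp only [Set.mem_ofPred_eq, not_or, not_lt]
      exact ⟨le_rfl, hne'.symm⟩
    · intro z hz hzp
      by_cases hzp' : z = p'
      · exact Or.inr hzp'
      · left
        refine lt_of_le_of_ne (hmax z hz) ?_
        intro heq2
        refine hT p hp p' hp' z hz hne'.symm (Ne.symm hzp) (Ne.symm hzp') ?_
        have e1 : u * (p' 0 - p 0) + v * (p' 1 - p 1) = 0 := by linarith
        have e2 : u * (z 0 - p 0) + v * (z 1 - p 1) = 0 := by linarith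
        unfold det
        linear_combination (-((p' 0 - p 0) * (z 1 - p 1) - (p' 1 - p 1) * (z 0 - p 0))) * huv
          + (u * (z 1 - p 1) - v * (z 0 - p 0)) * e1
          + (v * (p' 0 - p 0) - u * (p' 1 - p 1)) * e2
  · push Not at hex
    refine hv_of_convex {z : E | u * z 0 + v * z 1 < u * p 0 + v * p 1}
      (convex_half u v _) hp ?_ ?_
    · simp
    · intro z hz hzp
      exact lt_of_le_of_ne (hmax z hz) (hex z hz hzp)

/-! ### Long cups or caps -/

/-- there is a chain with `m + 1` edges whose last edge is `(p, q)` -/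
def Ch (S : Finset E) (t σ : ℝ) : ℕ → E → E → Prop
  | 0, p, q => p ∈ S ∧ q ∈ S ∧ ψ t p < ψ t q
  | m + 1, p, q => q ∈ S ∧ ψ t p < ψ t q ∧ ∃ o, Ch S t σ m o p ∧ 0 < σ * det o p q

lemma Ch.exists_chain {S : Finset E} {t σ : ℝ} : ∀ (m : ℕ) (p q : E), Ch S t σ m p q →
    ∃ x : ℕ → E, Chain S t σ (m + 1) x ∧ x m = p ∧ x (m + 1) = q := by
  intro m
  induction m with
  | zero =>
    intro p q h
    obtain ⟨h1, h2, h3⟩ := h
    refine ⟨fun i => if i = 0 then p else q, ⟨?_, ?_, ?_⟩, by simp, by simp⟩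
    · intro i hi
      by_cases h0 : i = 0
      · simp [h0, h1]
      · simp [h0, h2]
    · intro i hi
      have : i = 0 := by omega
      subst this
      simpa using h3
    · intro i hi
      omega
  | succ m ih =>
    intro p q h
    obtain ⟨h1, h2, o, ho, hd⟩ := h
    obtain ⟨x, hx, hxm, hxm1⟩ := ih o p ho
    have e : ∀ i, i ≤ m + 1 → (if i = m + 2 then q else x i) = x i := by
      intro i hi
      rw [if_neg (by omega)]
    refine ⟨fun i => if i = m + 2 then q else x i, ⟨?_, ?_, ?_⟩, ?_, ?_⟩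
    · intro i hi
      show (if i = m + 2 then q else x i) ∈ S
      by_cases h0 : i = m + 2
      · rw [if_pos h0]; exact h1
      · rw [if_neg h0]; exact hx.mem i (by omega)
    · intro i hi
      show ψ t (if i = m + 2 then q else x i) < ψ t (if i + 1 = m + 2 then q else x (i + 1))
      rw [e i (by omega)]
      by_cases h0 : i + 1 = m + 2
      · rw [if_pos h0]
        have : i = m + 1 := by omega
        rw [this, hxm1]
        exact h2
      · rw [if_neg h0]
        exact hx.mono i (by omega)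
    · intro i hi
      show 0 < σ * det (if i = m + 2 then q else x i) (if i + 1 = m + 2 then q else x (i + 1))
        (if i + 2 = m + 2 then q else x (i + 2))
      rw [e i (by omega), e (i + 1) (by omega)]
      by_cases h0 : i + 2 = m + 2
      · rw [if_pos h0]
        have : i = m := by omega
        rw [this, hxm, hxm1]
        exact hd
      · rw [if_neg h0]
        exact hx.conv i (by omega)
    · show (if m + 1 = m + 2 then q else x (m + 1)) = p
      rw [e (m + 1) (by omega), hxm1]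
    · show (if m + 1 + 1 = m + 2 then q else x (m + 1 + 1)) = q
      rw [if_pos rfl]

/-- length label of an edge -/
noncomputable def lab (S : Finset E) (t σ : ℝ) (l : ℕ) (p q : E) : ℕ :=
  Nat.findGreatest (fun m => Ch S t σ m p q) l

lemma lab_spec {S : Finset E} {t σ : ℝ} {l : ℕ} {p q : E} (hp : p ∈ S) (hq : q ∈ S)
    (hpq : ψ t p < ψ t q) : Ch S t σ (lab S t σ l p q) p q := by
  have h0 : Ch S t σ 0 p q := ⟨hp, hq, hpq⟩
  exact Nat.findGreatest_spec (P := fun m => Ch S t σ m p q) (Nat.zero_le l) h0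

lemma lab_lt {S : Finset E} {t σ : ℝ} {l : ℕ} {p q : E} (hp : p ∈ S) (hq : q ∈ S)
    (hpq : ψ t p < ψ t q) (hno : ∀ p q, ¬ Ch S t σ l p q) : lab S t σ l p q < l := by
  refine lt_of_le_of_ne (Nat.findGreatest_le l) ?_
  intro h
  have := lab_spec (σ := σ) (l := l) hp hq hpq
  rw [h] at this
  exact hno _ _ this

lemma lab_lt_lab {S : Finset E} {t σ : ℝ} {l : ℕ} {o p q : E} (ho : o ∈ S) (hp : p ∈ S)
    (hq : q ∈ S) (hop : ψ t o < ψ t p)
    (hpq : ψ t p < ψ t q) (hno : ∀ p q, ¬ Ch S t σ l p q) (hd : 0 < σ * det o p q) :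
    lab S t σ l o p < lab S t σ l p q := by
  have h1 : Ch S t σ (lab S t σ l o p + 1) p q :=
    ⟨hq, hpq, o, lab_spec ho hp hop, hd⟩
  have h2 := lab_lt (σ := σ) (l := l) ho hp hop hno
  exact Nat.le_findGreatest (P := fun m => Ch S t σ m p q) (by omega) h1

/-- Erdős–Szekeres: a set of more than `2 ^ (l * l)` points contains a cup or cap with `l + 1`
edges. -/
theorem exists_long {S : Finset E} (hS : GP S) (t : ℝ)
    (hinj : ∀ p ∈ S, ∀ q ∈ S, ψ t p = ψ t q → p = q) (l : ℕ) (hcard : 2 ^ (l * l) < S.card) :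
    ∃ σ : ℝ, (σ = 1 ∨ σ = -1) ∧ ∃ x, Chain S t σ (l + 1) x := by
  by_contra hcon
  push Not at hcon
  have hno1 : ∀ p q, ¬ Ch S t 1 l p q := by
    intro p q h
    obtain ⟨x, hx, -⟩ := h.exists_chain
    exact hcon 1 (Or.inl rfl) x hx
  have hno2 : ∀ p q, ¬ Ch S t (-1) l p q := by
    intro p q h
    obtain ⟨x, hx, -⟩ := h.exists_chain
    exact hcon (-1) (Or.inr rfl) x hx
  let I : E → Finset (ℕ × ℕ) := fun q =>
    (S.filter (fun p => ψ t p < ψ t q)).image (fun p => (lab S t 1 l p q, lab S t (-1) l p q))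
  have hmaps : ∀ q ∈ S, I q ∈ (range l ×ˢ range l).powerset := by
    intro q hq
    rw [mem_powerset]
    intro w hw
    obtain ⟨p, hp, rfl⟩ := mem_image.mp hw
    rw [mem_filter] at hp
    rw [mem_product, mem_range, mem_range]
    exact ⟨lab_lt hp.1 hq hp.2 hno1, lab_lt hp.1 hq hp.2 hno2⟩
  have key : ∀ p ∈ S, ∀ q ∈ S, ψ t p < ψ t q → I p ≠ I q := by
    intro p hp q hq hpq hI
    have h1 : (lab S t 1 l p q, lab S t (-1) l p q) ∈ I q :=
      mem_image.mpr ⟨p, mem_filter.mpr ⟨hp, hpq⟩, rfl⟩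
    rw [← hI] at h1
    obtain ⟨o, ho, heq⟩ := mem_image.mp h1
    rw [mem_filter] at ho
    rw [Prod.mk.injEq] at heq
    have hne1 : o ≠ p := by rintro rfl; exact lt_irrefl _ ho.2
    have hne2 : p ≠ q := by rintro rfl; exact lt_irrefl _ hpq
    have hne3 : o ≠ q := by rintro rfl; exact lt_irrefl _ (hpq.trans ho.2)
    have hd := hS o ho.1 p hp q hq hne1 hne3 hne2
    rcases lt_or_gt_of_ne hd with hd | hd
    · have := lab_lt_lab (σ := -1) ho.1 hp hq ho.2 hpq hno2 (by linarith)
      omega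
    · have := lab_lt_lab (σ := 1) ho.1 hp hq ho.2 hpq hno1 (by linarith)
      omega
  have hinjI : Set.InjOn I S := by
    intro p hp q hq hpq
    by_contra hne
    rcases lt_trichotomy (ψ t p) (ψ t q) with h | h | h
    · exact key p hp q hq h hpq
    · exact hne (hinj p hp q hq h)
    · exact key q hq p hp h hpq.symm
  have := card_le_card_of_injOn I hmaps hinjI
  rw [card_powerset, card_product, card_range] at this
  omega

/-- a linear functional that separates a finite set -/
lemma exists_psi (P : Finset E) : ∃ t : ℝ, ∀ p ∈ P, ∀ q ∈ P, ψ t p = ψ t q → p = q := by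
  obtain ⟨t, ht⟩ := Infinite.exists_notMem_finset
    ((P ×ˢ P).image (fun w : E × E => -(w.1 0 - w.2 0) / (w.1 1 - w.2 1)))
  refine ⟨t, ?_⟩
  intro p hp q hq h
  by_cases h1 : p 1 = q 1
  · have h0 : p 0 = q 0 := by
      unfold ψ at h
      rw [h1] at h
      linarith
    ext i
    fin_cases i
    · exact h0
    · exact h1
  · exfalso
    apply ht
    rw [mem_image]
    refine ⟨(p, q), mem_product.mpr ⟨hp, hq⟩, ?_⟩
    have h2 : p 1 - q 1 ≠ 0 := sub_ne_zero.mpr h1
    show -(p 0 - q 0) / (p 1 - q 1) = t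
    rw [div_eq_iff h2]
    unfold ψ at h
    linarith

end Pool.Agent.Helper456.ES
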